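import Mathlib

namespace Pool.Agent.H255Z.Quad

open NumberField

/-- The truncated counting function, relative to the number field `K`, of the point `β` for the
divisor consisting of the rational points `[s : t] = α i`: the sum of `log N(v)` over the finite
places `v` of `K` above no prime of `S` at which `β` reduces to one of the points `α i`. -/
noncomputable def truncCount {K : Type*} [Field K] [NumberField K] {q : ℕ} (α : Fin q → ℤ × ℤ)
    (S : Finset ℕ) (β : K) : ℝ :=
  ∑ᶠ v ∈ {v : FinitePlace K | (∀ p ∈ S, (p : 𝓞 K) ∉ v.maximalIdeal.asIdeal) ∧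
      ∃ i, v ((α i).2 * β - (α i).1) < max (v β) 1},
    Real.log (Ideal.absNorm v.maximalIdeal.asIdeal)

end Pool.Agent.H255Z.Quad
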