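import Mathlib

/-! The integral quadratic form attached to an element of a quadratic field. -/

namespace Pool.Agent.H255Z.Quad

open Finset NumberField Module

variable {K : Type*} [Field K] [NumberField K]

theorem two_emb (h2 : finrank ℚ K = 2) : ∃ φ ψ : K →+* ℂ,
    (∀ x : K, ((Algebra.norm ℚ x : ℚ) : ℂ) = φ x * ψ x) ∧
    (∀ x : K, ((Algebra.trace ℚ K x : ℚ) : ℂ) = φ x + ψ x) ∧
    (∀ (x : K) (r : ℝ), ∏ v : InfinitePlace K, max (v x) r ^ v.mult =
      max ‖φ x‖ r * max ‖ψ x‖ r) := by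
  classical
  have h : (univ : Finset (K →+* ℂ)).card = 2 := by
    rw [card_univ, Embeddings.card, h2]
  obtain ⟨φ, ψ, hne, he⟩ := Finset.card_eq_two.1 h
  refine ⟨φ, ψ, fun x => ?_, fun x => ?_, fun x r => ?_⟩
  · have := Algebra.norm_eq_prod_embeddings ℚ ℂ x
    rw [← Fintype.prod_equiv (RingHom.equivRatAlgHom K ℂ) (fun f => f x) (fun f => f x)
      (fun _ => by simp [RingHom.equivRatAlgHom_apply]), he, prod_pair hne] at this
    exact this
  · have := trace_eq_sum_embeddings (K := ℚ) (L := K) ℂ (x := x)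
    rw [← Fintype.sum_equiv (RingHom.equivRatAlgHom K ℂ) (fun f => f x) (fun f => f x)
      (fun _ => by simp [RingHom.equivRatAlgHom_apply]), he, sum_pair hne] at this
    exact this
  · rw [← prod_pair (f := fun f : K →+* ℂ => max ‖f x‖ r) hne, ← he,
      ← Finset.prod_fiberwise univ InfinitePlace.mk (fun f : K →+* ℂ => max ‖f x‖ r)]
    have (w : InfinitePlace K) (f) (hf : f ∈ ({f | InfinitePlace.mk f = w} : Finset _)) :
        max ‖f x‖ r = max (w x) r := by rw [← (mem_filter.1 hf).2, InfinitePlace.apply]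
    simp_rw [Finset.prod_congr rfl (this _), Finset.prod_const, InfinitePlace.card_filter_mk_eq]

theorem discr_sq (h2 : finrank ℚ K = 2) (γ : 𝓞 K) : ∃ k : ℤ,
    Algebra.discr ℚ ![(1 : K), (γ : K)] = (k : ℚ) ^ 2 * discr K := by
  classical
  have hc : Fintype.card (Free.ChooseBasisIndex ℤ (𝓞 K)) = 2 := by
    rw [← finrank_eq_card_chooseBasisIndex, RingOfIntegers.rank, h2]
  let e := Fintype.equivFinOfCardEq hc
  let b := (integralBasis K).reindex e
  let w : Fin 2 → 𝓞 K := ![1, γ]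
  let P : Matrix (Fin 2) (Fin 2) ℤ := fun i j => (RingOfIntegers.basis K).repr (w j) (e.symm i)
  have h1 : b.toMatrix ![(1 : K), (γ : K)] = P.map (Int.castRingHom ℚ) := by
    ext i j
    have : ![(1 : K), (γ : K)] j = algebraMap (𝓞 K) K (w j) := by fin_cases j <;> simp [w]
    rw [Basis.toMatrix_apply, this, Basis.repr_reindex_apply, integralBasis_repr_apply]
    rfl
  refine ⟨P.det, ?_⟩
  rw [← b.toMatrix_map_vecMul ![(1 : K), (γ : K)], Algebra.discr_of_matrix_vecMul, h1, coe_discr,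
    ← RingHom.mapMatrix_apply, ← RingHom.map_det, Basis.coe_reindex, Algebra.discr_reindex]
  rfl

theorem lt_of_mem_mul (v : FinitePlace K) (J : Ideal (𝓞 K)) (M : ℝ) (hM : 0 < M)
    (hJ : ∀ j ∈ J, v (j : K) ≤ M) (y : 𝓞 K) (hy : y ∈ J * v.maximalIdeal.asIdeal) :
    v (y : K) < M := by
  refine Submodule.mul_induction_on hy (fun j hj π hπ => ?_) (fun x z hx hz => ?_)
  · have h1 : v (π : K) < 1 := by
      rw [← FinitePlace.norm_embedding_eq]
      exact (FinitePlace.norm_lt_one_iff_mem K _ π).2 hπ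
    push_cast
    rw [map_mul]
    have h2 := hJ j hj
    have h3 : 0 ≤ v (π : K) := apply_nonneg _ _
    have h4 : 0 ≤ v (j : K) := apply_nonneg _ _
    nlinarith
  · push_cast
    exact (v.add_le _ _).trans_lt (max_lt hx hz)

theorem int_le_one (v : FinitePlace K) (y : 𝓞 K) : v (y : K) ≤ 1 := by
  rw [← FinitePlace.norm_embedding_eq]
  exact FinitePlace.norm_le_one K _ y

theorem data (h2 : finrank ℚ K = 2) (β : K) (hβ : β ∉ Set.range (algebraMap ℚ K)) :
    ∃ a b c k : ℤ, 0 < a ∧ a * β ^ 2 + b * β + c = 0 ∧ (a : ℝ) ≤ Height.mulHeight₁ β ∧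
      ((|b| : ℤ) : ℝ) ≤ 2 * Height.mulHeight₁ β ∧ ((|c| : ℤ) : ℝ) ≤ Height.mulHeight₁ β ∧
      k ≠ 0 ∧ b ^ 2 - 4 * a * c = discr K * k ^ 2 ∧
      ∀ s t : ℤ, IsCoprime s t → a * s ^ 2 + b * s * t + c * t ^ 2 ≠ 0 ∧
        ∀ p : ℕ, p.Prime → (p : ℤ) ∣ a * s ^ 2 + b * s * t + c * t ^ 2 →
          ∃ v : FinitePlace K, (p : 𝓞 K) ∈ v.maximalIdeal.asIdeal ∧
            v (t * β - s) < max (v β) 1 := by
  classical
  obtain ⟨φ, ψ, hN, hT, hP⟩ := two_emb h2
  obtain ⟨n, hn, γ, hγ, hJ⟩ := exists_nat_ne_zero_exists_integer_mul_eq_and_absNorm_span_eq_pow β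
  rw [h2, show 2 - 1 = 1 from rfl, pow_one] at hJ
  have hn0 : (0 : ℝ) < n := by exact_mod_cast Nat.pos_of_ne_zero hn
  have hnK : (n : K) ≠ 0 := by exact_mod_cast hn
  have hnC : (n : ℂ) ≠ 0 := by exact_mod_cast hn
  have hNi : ∀ y : 𝓞 K, ((Algebra.norm ℤ y : ℤ) : ℂ) = φ y * ψ y := fun y => by
    rw [← hN, ← Algebra.coe_norm_int]; norm_cast
  have hTi : ∀ y : 𝓞 K, ((Algebra.trace ℤ (𝓞 K) y : ℤ) : ℂ) = φ y + ψ y := fun y => by
    rw [← hT, ← Algebra.coe_trace_int]; norm_cast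
  obtain ⟨c, hc⟩ : (n : ℤ) ∣ Algebra.norm ℤ γ := by
    rw [← hJ]
    exact Ideal.absNorm_dvd_norm_of_mem (Ideal.subset_span (by simp))
  set b : ℤ := -Algebra.trace ℤ (𝓞 K) γ with hb
  have hbC : (b : ℂ) = -(φ γ + ψ γ) := by rw [hb, Int.cast_neg, hTi]
  have hcC : (n : ℂ) * c = φ γ * ψ γ := by rw [← hNi, hc]; push_cast; rfl
  have hH : n * Height.mulHeight₁ β = max ‖φ γ‖ n * max ‖ψ γ‖ n := by
    have hv (i : Fin 2) : (![γ, n] i : K) = ![(γ : K), n] i := by fin_cases i <;> rfl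
    have h1 : n * ∏ᶠ (v : FinitePlace K), ⨆ i, v (![(γ : K), n] i) = 1 := by
      have := absNorm_mul_finprod_finitePlace_eq_one (show ![γ, n] ≠ 0 by simp [hn])
      rw [Matrix.range_cons, Matrix.range_cons, Matrix.range_empty, Set.union_empty,
        Set.singleton_union, Set.pair_comm, hJ] at this
      simpa [hv] using this
    rw [← mul_div_cancel_left₀ β hnK, hγ, Height.mulHeight₁_div_eq_mulHeight,
      mulHeight_eq (by simp [hn]), mul_left_comm, h1, mul_one, ← hP]
    refine Finset.prod_congr rfl fun v _ => ?_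
    congr 1
    exact eq_of_forall_ge_iff <| by simp [ciSup_le_iff, Fin.forall_fin_two]
  have m1 : (n : ℝ) ≤ max ‖φ γ‖ n := le_max_right _ _
  have m2 : (n : ℝ) ≤ max ‖ψ γ‖ n := le_max_right _ _
  have m3 : ‖φ γ‖ ≤ max ‖φ γ‖ n := le_max_left _ _
  have m4 : ‖ψ γ‖ ≤ max ‖ψ γ‖ (n : ℝ) := le_max_left _ _
  have m5 := norm_nonneg (φ γ)
  have m6 := norm_nonneg (ψ γ)
  obtain ⟨k, hk⟩ := discr_sq h2 γ
  have hd : b ^ 2 - 4 * n * c = discr K * k ^ 2 := by
    generalize discr K = d at hk ⊢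
    have h1 := congrArg (fun x : ℚ => (x : ℂ)) hk
    simp only [Algebra.discr_def, Matrix.det_fin_two, Algebra.traceMatrix_apply,
      Algebra.traceForm_apply, Matrix.cons_val_zero, Matrix.cons_val_one] at h1
    push_cast at h1
    simp only [hT, map_mul, map_one] at h1
    have : ((b ^ 2 - 4 * n * c : ℤ) : ℂ) = ((d * k ^ 2 : ℤ) : ℂ) := by
      push_cast
      rw [hbC]
      linear_combination h1 - 4 * hcC
    exact_mod_cast this
  have hφ : φ γ = n * φ β := by rw [← hγ, map_mul, map_natCast]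
  refine ⟨n, b, c, k, by exact_mod_cast Nat.pos_of_ne_zero hn, ?_, ?_, ?_, ?_, ?_, hd, ?_⟩
  · refine φ.injective (mul_left_cancel₀ hnC ?_)
    simp only [map_add, map_mul, map_pow, map_intCast, map_zero]
    push_cast
    rw [hbC]
    linear_combination hcC + (ψ γ - n * φ β) * hφ
  · refine le_of_mul_le_mul_left ?_ hn0
    push_cast
    rw [hH]
    exact mul_le_mul m1 m2 hn0.le (hn0.le.trans m1)
  · refine le_of_mul_le_mul_left ?_ hn0
    have h1 : ((|b| : ℤ) : ℝ) ≤ ‖φ γ‖ + ‖ψ γ‖ := by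
      rw [Int.cast_abs, ← Complex.norm_intCast, hbC, norm_neg]
      exact norm_add_le _ _
    have h3 := mul_le_mul m3 m2 hn0.le (hn0.le.trans m1)
    have h4 := mul_le_mul m1 m4 m6 (hn0.le.trans m1)
    nlinarith
  · refine le_of_mul_le_mul_left ?_ hn0
    have h1 := congrArg norm hcC
    rw [norm_mul, norm_mul, Complex.norm_natCast, Complex.norm_intCast] at h1
    rw [hH, Int.cast_abs, h1]
    exact mul_le_mul m3 m4 m6 (hn0.le.trans m1)
  · intro hk0
    rw [hk0] at hd
    have h1 : ((b ^ 2 - 4 * n * c : ℤ) : ℂ) = 0 := by rw [hd]; simp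
    push_cast at h1
    have h3 : φ γ - ψ γ = 0 := by
      refine pow_eq_zero_iff (two_ne_zero) |>.1 ?_
      rw [hbC] at h1
      linear_combination h1 + 4 * hcC
    refine hβ ⟨-b / (2 * n), φ.injective ?_⟩
    rw [eq_ratCast, map_ratCast]
    push_cast
    rw [hbC]
    field_simp
    linear_combination 2 * hφ - h3
  · intro s t hst
    set y : 𝓞 K := t * γ - s * n with hy
    have hyK : (y : K) = n * (t * β - s) := by
      have : (y : K) = t * (γ : K) - s * n := by rw [hy]; simp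
      rw [this, ← hγ]; ring
    have hy0 : y ≠ 0 := by
      intro e
      rw [e] at hyK
      have h1 : (t : K) * β - s = 0 := (mul_eq_zero.1 hyK.symm).resolve_left hnK
      by_cases ht : t = 0
      · rw [ht] at h1 hst
        have h3 : s = 0 := by simpa using h1
        rw [h3] at hst
        exact not_isCoprime_zero_zero hst
      · have htK : (t : K) ≠ 0 := by exact_mod_cast ht
        refine hβ ⟨s / t, ?_⟩
        rw [eq_ratCast]
        push_cast
        field_simp
        linear_combination -h1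
    have hNy : Algebra.norm ℤ y = n * (n * s ^ 2 + b * s * t + c * t ^ 2) := by
      have : ((Algebra.norm ℤ y : ℤ) : ℂ) = ((n * (n * s ^ 2 + b * s * t + c * t ^ 2) : ℤ) : ℂ) := by
        rw [hNi, hy]
        push_cast
        simp only [map_sub, map_mul, map_intCast, map_natCast]
        rw [hbC]
        linear_combination (-(t : ℂ) ^ 2) * hcC
      exact_mod_cast this
    refine ⟨fun e => ?_, fun p hp hd => ?_⟩
    · rw [e, mul_zero] at hNy
      exact hy0 (Algebra.norm_eq_zero_iff.1 hNy)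
    have hyJ : y ∈ Ideal.span {(n : 𝓞 K), γ} :=
      Ideal.mem_span_pair.2 ⟨-s, t, by rw [hy]; ring⟩
    obtain ⟨I, hI⟩ := Ideal.dvd_iff_le.2 ((Ideal.span_singleton_le_iff_mem _).2 hyJ)
    have h1 := congrArg Ideal.absNorm hI
    rw [map_mul, hJ, Ideal.absNorm_span_singleton, hNy, Int.natAbs_mul, Int.natAbs_natCast] at h1
    have h3 : p ∣ Ideal.absNorm I := by
      rw [← Nat.eq_of_mul_eq_mul_left (Nat.pos_of_ne_zero hn) h1]
      exact Int.natCast_dvd.1 hd
    obtain ⟨Q, hQ, hQp, hQI⟩ := Ideal.exists_isMaximal_dvd_of_dvd_absNorm' hp I h3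
    have hpQ : (p : 𝓞 K) ∈ Q := by
      have : (p : ℤ) ∈ Q.under ℤ := hQp ▸ Ideal.mem_span_singleton_self _
      simpa using this
    have hQ0 : Q ≠ ⊥ := fun e => by
      rw [e, Ideal.mem_bot] at hpQ
      exact hp.ne_zero (by exact_mod_cast hpQ)
    refine ⟨FinitePlace.mk ⟨Q, hQ.isPrime, hQ0⟩, by rwa [FinitePlace.maximalIdeal_mk], ?_⟩
    set v : FinitePlace K := FinitePlace.mk ⟨Q, hQ.isPrime, hQ0⟩ with hv
    have hvn : 0 < v (n : K) := FinitePlace.pos_iff.2 hnK
    have h4 := lt_of_mem_mul v (Ideal.span {(n : 𝓞 K), γ}) (v (n : K) * max (v β) 1)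
      (mul_pos hvn (lt_max_of_lt_right one_pos)) (fun j hj => ?_) y ?_
    · rw [hyK, map_mul] at h4
      exact lt_of_mul_lt_mul_left h4 hvn.le
    · obtain ⟨u, w, rfl⟩ := Ideal.mem_span_pair.1 hj
      have e : ((u * n + w * γ : 𝓞 K) : K) = (u : K) * n + (w : K) * (γ : K) := by simp
      rw [e]
      refine (v.add_le _ _).trans (max_le ?_ ?_)
      · rw [map_mul, mul_comm]
        exact mul_le_mul_of_nonneg_left ((int_le_one v u).trans (le_max_right _ _)) hvn.le
      · rw [← hγ, map_mul, map_mul, mul_left_comm]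
        refine mul_le_mul_of_nonneg_left (le_trans ?_ (le_max_left _ _)) hvn.le
        exact mul_le_of_le_one_left (apply_nonneg _ _) (int_le_one v w)
    · rw [hv, FinitePlace.maximalIdeal_mk]
      refine Ideal.mul_mono_right (Ideal.dvd_iff_le.1 hQI) ?_
      rw [← hI]
      exact Ideal.mem_span_singleton_self _

end Pool.Agent.H255Z.Quad
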