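import Pool.Agent.H255Z.Quad.Field
import Pool.Agent.H255Z.Abc.C

/-! Points with rational abscissa on hyperelliptic curves with rational branch points. -/

namespace Pool.Agent.H255Z.Quad

open Finset NumberField Module IntermediateField Polynomial

theorem disc_sq (y : ℂ) (r : ℚ) (hy : y ^ 2 = r) (hy0 : y ≠ 0) [NumberField ℚ⟮y⟯] :
    ∃ (D : ℤ) (u : ℚ), D ≠ 0 ∧ r * D = u ^ 2 ∧
      Real.log |(D : ℝ)| = 2 * (Real.log |(discr ℚ⟮y⟯ : ℝ)| / finrank ℚ ℚ⟮y⟯) := by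
  by_cases h : y ∈ (⊥ : IntermediateField ℚ ℂ)
  · have e : ℚ⟮y⟯ = ⊥ := adjoin_simple_eq_bot_iff.2 h
    obtain ⟨u, hu⟩ := IntermediateField.mem_bot.1 h
    have h1 : discr ℚ⟮y⟯ = 1 :=
      (discr_eq_discr_of_algEquiv _ ((equivOfEq e).trans (botEquiv ℚ ℂ))).trans discr_rat
    refine ⟨1, u, one_ne_zero, ?_, by simp [h1]⟩
    rw [← hu, eq_ratCast] at hy
    have : u ^ 2 = r := by exact_mod_cast hy
    simp [this]
  · have hp : aeval y (X ^ 2 - C r : ℚ[X]) = 0 := by simp [hy]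
    have hm : (X ^ 2 - C r : ℚ[X]).Monic := monic_X_pow_sub_C r two_ne_zero
    have hi : IsIntegral ℚ y := ⟨_, hm, hp⟩
    have h1 : finrank ℚ ℚ⟮y⟯ ≤ 2 := by
      rw [adjoin.finrank hi]
      have := natDegree_le_natDegree (minpoly.min ℚ y hm hp)
      rwa [natDegree_X_pow_sub_C] at this
    have h2 : finrank ℚ ℚ⟮y⟯ = 2 := by
      have a1 : finrank ℚ ℚ⟮y⟯ ≠ 1 := fun e => h (finrank_adjoin_simple_eq_one_iff.1 e)
      have a2 : 0 < finrank ℚ ℚ⟮y⟯ := finrank_pos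
      omega
    have hβ : AdjoinSimple.gen ℚ y ∉ Set.range (algebraMap ℚ ℚ⟮y⟯) := by
      rintro ⟨u, hu⟩
      exact h (IntermediateField.mem_bot.2 ⟨u, by
        simpa using congrArg (algebraMap ℚ⟮y⟯ ℂ) hu⟩)
    obtain ⟨a, b, c, k, a0, e0, -, -, -, hk, hd, -⟩ := data h2 _ hβ
    have e1 : (a : ℂ) * y ^ 2 + b * y + c = 0 := by
      simpa using congrArg (algebraMap ℚ⟮y⟯ ℂ) e0
    rw [hy] at e1
    have hb : b = 0 := by
      by_contra hb
      have hb' : (b : ℂ) ≠ 0 := by exact_mod_cast hb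
      refine h (IntermediateField.mem_bot.2 ⟨-(a * r + c) / b, ?_⟩)
      rw [eq_ratCast]
      push_cast
      field_simp
      linear_combination -e1
    rw [hb] at e1 hd
    have e2 : (a : ℚ) * r + c = 0 := by
      have : (((a : ℚ) * r + c : ℚ) : ℂ) = 0 := by push_cast; simpa using e1
      exact_mod_cast this
    have e3 : -4 * (a : ℚ) * c = discr ℚ⟮y⟯ * k ^ 2 := by
      have : -4 * a * c = discr ℚ⟮y⟯ * k ^ 2 := by linarith
      exact_mod_cast this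
    have a1 : (a : ℚ) ≠ 0 := by exact_mod_cast a0.ne'
    refine ⟨discr ℚ⟮y⟯, discr ℚ⟮y⟯ * k / (2 * a), discr_ne_zero _, ?_, by rw [h2]; push_cast; ring⟩
    rw [div_pow, eq_div_iff (by positivity)]
    linear_combination (discr ℚ⟮y⟯ : ℚ) * (e3 + 4 * a * e2)

theorem rad_sq (N D : ℤ) (u : ℚ) (hN : N ≠ 0) (hD : D ≠ 0) (h : (N : ℚ) * D = u ^ 2) :
    2 * ∑ p ∈ N.natAbs.primeFactors, Real.log p ≤ Real.log |(N : ℝ)| + Real.log |(D : ℝ)| := by
  obtain ⟨t, ht⟩ : IsSquare (N * D) := Rat.isSquare_intCast_iff.1 ⟨u, by push_cast; rw [h]; ring⟩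
  have t0 : t ≠ 0 := fun e => mul_ne_zero hN hD (by rw [ht, e, mul_zero])
  have h1 : ∏ p ∈ N.natAbs.primeFactors, p ∣ t.natAbs := by
    refine Finset.prod_primes_dvd _ (fun p hp => (Nat.prime_of_mem_primeFactors hp).prime) ?_
    intro p hp
    have h2 : (p : ℤ) ∣ t * t :=
      ht ▸ (Int.natCast_dvd.2 (Nat.dvd_of_mem_primeFactors hp)).mul_right D
    exact Int.natCast_dvd.1
      (((Nat.prime_iff_prime_int.1 (Nat.prime_of_mem_primeFactors hp)).dvd_or_dvd h2).elim id id)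
  have h2 : ((∏ p ∈ N.natAbs.primeFactors, p : ℕ) : ℝ) ≤ |(t : ℝ)| := by
    rw [← Int.cast_abs, ← Int.natCast_natAbs, Int.cast_natCast]
    exact_mod_cast Nat.le_of_dvd (Int.natAbs_pos.2 t0) h1
  have hp : ∀ p ∈ N.natAbs.primeFactors, (0 : ℝ) < p := fun p hp => by
    exact_mod_cast (Nat.prime_of_mem_primeFactors hp).pos
  push_cast at h2
  have h3 := Real.log_le_log (Finset.prod_pos hp) h2
  rw [Real.log_prod fun p h => (hp p h).ne'] at h3
  have h4 : (N : ℝ) * D = t * t := by exact_mod_cast ht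
  have hN' : (N : ℝ) ≠ 0 := by exact_mod_cast hN
  have hD' : (D : ℝ) ≠ 0 := by exact_mod_cast hD
  have t' : (t : ℝ) ≠ 0 := by exact_mod_cast t0
  simp only [Real.log_abs] at h3 ⊢
  rw [← Real.log_mul hN' hD', h4, Real.log_mul t' t']
  linarith

theorem mainH (g : ℕ) (c : ℤ) (α : Fin (2 * g + 2) → ℤ × ℤ)
    (hcop : ∀ l, IsCoprime (α l).1 (α l).2)
    (hne : ∀ i j, i ≠ j → (α i).1 * (α j).2 - (α i).2 * (α j).1 ≠ 0)
    (κ C η : ℝ) (hη : 0 < η) : ∃ D : ℝ, ∀ X : ℕ, ∀ T : Finset (ℚ × ℂ),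
      (∀ P ∈ T, P.2 ≠ 0 ∧ P.2 ^ 2 = c * ∏ i, ((α i).2 * (P.1 : ℂ) - (α i).1) ∧
        Height.mulHeight₁ P.1 ≤ X ∧ ∃ _ : NumberField ℚ⟮P.2⟯,
          Real.log |(discr ℚ⟮P.2⟯ : ℝ)| / finrank ℚ ℚ⟮P.2⟯ + C <
            (g + 1 - κ) * Height.logHeight₁ P.1) →
      (T.card : ℝ) ≤ D * (X : ℝ) ^ (max (2 - κ) (6 / 5) + η) := by
  classical
  set Δ : ℕ := ∏ t ∈ univ.filter (fun t : Fin (2 * g + 2) × Fin (2 * g + 2) => t.1 ≠ t.2),
    ((α t.1).1 * (α t.2).2 - (α t.1).2 * (α t.2).1).natAbs with hΔ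
  have hΔ1 : Δ ≠ 0 := Finset.prod_ne_zero_iff.2 fun t ht =>
    Int.natAbs_ne_zero.2 (hne _ _ (mem_filter.1 ht).2)
  set A : Fin (2 * g + 2) → ℝ := fun i => |((α i).1 : ℝ)| + |((α i).2 : ℝ)| with hA
  obtain ⟨D, hD⟩ := Pool.Agent.H255Z.Abc.main (2 * g + 2) (by omega) α hcop hne Δ.primeFactors κ
    (C - (Real.log |(c : ℝ)| + ∑ i, Real.log (A i)) / 2) η hη
  refine ⟨2 * D, fun X T hT => ?_⟩
  have e1 : T.card ≤ 2 * (T.image fun P => (P.1.num, (P.1.den : ℤ))).card := by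
    refine Finset.card_le_mul_card_image _ 2 fun w hw => ?_
    obtain ⟨Q, hQ, rfl⟩ := mem_image.1 hw
    refine le_trans (card_le_card (t := {Q, (Q.1, -Q.2)}) fun P hP => ?_) card_le_two
    obtain ⟨a1, a2⟩ := mem_filter.1 hP
    simp only [Prod.mk.injEq, Nat.cast_inj] at a2
    have a3 : P.1 = Q.1 := Rat.ext a2.1 a2.2
    have a4 : P.2 ^ 2 = Q.2 ^ 2 := by rw [(hT P a1).2.1, (hT Q hQ).2.1, a3]
    simp only [mem_insert, mem_singleton]
    exact (sq_eq_sq_iff_eq_or_eq_neg.1 a4).imp (fun h => Prod.ext a3 h) fun h => Prod.ext a3 h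
  have e2 : (T.card : ℝ) ≤ 2 * ((T.image fun P => (P.1.num, (P.1.den : ℤ))).card : ℝ) := by
    exact_mod_cast e1
  rw [mul_assoc]
  refine e2.trans (mul_le_mul_of_nonneg_left (le_trans ?_ (hD X)) (by norm_num))
  rw [← Set.ncard_coe_finset]
  refine Nat.cast_le.2 (Set.ncard_le_ncard ?_ ?_)
  swap
  · refine (Icc (-(X : ℤ)) X ×ˢ Icc (-(X : ℤ)) X).finite_toSet.subset ?_
    rintro w ⟨-, a1, a2, -⟩
    exact mem_coe.2 (mem_product.2 ⟨mem_Icc.2 (abs_le.1 a1), mem_Icc.2 (abs_le.1 a2)⟩)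
  intro w hw
  obtain ⟨⟨x, y⟩, hP, rfl⟩ := mem_image.1 (mem_coe.1 hw)
  obtain ⟨y0, hy, hH, _, hd⟩ := hT _ hP
  simp only at y0 hy hH hd
  rw [Rat.mulHeight₁_eq_max] at hH
  rw [Rat.logHeight₁_eq_log_max] at hd
  have hH' : max x.num.natAbs x.den ≤ X := by exact_mod_cast hH
  have hM : ((max |x.num| |(x.den : ℤ)| : ℤ) : ℝ) = ((max x.num.natAbs x.den : ℕ) : ℝ) := by
    rw [← Int.cast_natCast]; congr 1; push_cast; simp
  have cop : IsCoprime x.num (x.den : ℤ) := Int.isCoprime_iff_gcd_eq_one.2 x.reduced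
  set L : Fin (2 * g + 2) → ℤ := fun l => x.num * (α l).2 - x.den * (α l).1 with hL
  have hr : y ^ 2 = ((c * ∏ i, ((α i).2 * x - (α i).1) : ℚ) : ℂ) := by rw [hy]; push_cast; rfl
  obtain ⟨D0, u, d0, hu, hlog⟩ := disc_sq y _ hr y0
  have hn : (x.den : ℚ) ≠ 0 := by exact_mod_cast x.den_nz
  have hN : ((c * ∏ i, L i : ℤ) : ℚ) =
      (c * ∏ i, ((α i).2 * x - (α i).1)) * ((x.den : ℚ) ^ (g + 1)) ^ 2 := by
    have : ((x.den : ℚ) ^ (g + 1)) ^ 2 = ∏ i : Fin (2 * g + 2), (x.den : ℚ) := by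
      rw [Finset.prod_const, card_univ, Fintype.card_fin, ← pow_mul]; congr 1; ring
    rw [this, mul_assoc, ← Finset.prod_mul_distrib]
    push_cast
    congr 1
    refine Finset.prod_congr rfl fun i _ => ?_
    simp only [hL]
    push_cast
    rw [← Rat.mul_den_eq_num x]; ring
  have hN0 : c * ∏ i, L i ≠ 0 := by
    intro e
    rw [e] at hN
    have : (c * ∏ i, ((α i).2 * x - (α i).1) : ℚ) = 0 :=
      (mul_eq_zero.1 hN.symm).resolve_right (by positivity)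
    rw [this] at hr
    exact y0 (by simpa using hr)
  have hL0 : ∀ l, L l ≠ 0 := fun l =>
    Finset.prod_ne_zero_iff.1 (right_ne_zero_of_mul hN0) l (mem_univ l)
  have h1 := rad_sq _ D0 (u * (x.den : ℚ) ^ (g + 1)) hN0 d0 (by rw [hN, mul_pow, ← hu]; ring)
  refine ⟨cop, by simp only; rw [Int.abs_eq_natAbs]; omega,
    by simp only; rw [Int.abs_eq_natAbs]; omega, hL0, ?_⟩
  have h2 : ∑ l, ∑ p ∈ (L l).natAbs.primeFactors \ Δ.primeFactors, Real.log p ≤
      ∑ p ∈ (c * ∏ i, L i).natAbs.primeFactors, Real.log p := by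
    rw [← Finset.sum_biUnion]
    · refine Finset.sum_le_sum_of_subset_of_nonneg (fun p hp => ?_)
        fun p _ _ => Real.log_natCast_nonneg p
      obtain ⟨l, -, hl⟩ := mem_biUnion.1 hp
      exact Nat.primeFactors_mono (Int.natAbs_dvd_natAbs.2
        ((Finset.dvd_prod_of_mem L (mem_univ l)).mul_left c)) (Int.natAbs_ne_zero.2 hN0)
        (mem_sdiff.1 hl).1
    · intro i _ j _ hij
      refine Finset.disjoint_left.2 fun p hi hj => (mem_sdiff.1 hi).2 ?_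
      have hp := Nat.prime_of_mem_primeFactors (mem_sdiff.1 hi).1
      have a1 := Int.natCast_dvd.2 (Nat.dvd_of_mem_primeFactors (mem_sdiff.1 hi).1)
      have a2 := Int.natCast_dvd.2 (Nat.dvd_of_mem_primeFactors (mem_sdiff.1 hj).1)
      refine Nat.mem_primeFactors.2 ⟨hp, (Int.natCast_dvd.1 ?_).trans (Finset.dvd_prod_of_mem
        (fun t : Fin (2 * g + 2) × Fin (2 * g + 2) =>
          ((α t.1).1 * (α t.2).2 - (α t.1).2 * (α t.2).1).natAbs) (a := (i, j))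
        (mem_filter.2 ⟨mem_univ _, hij⟩)), hΔ1⟩
      obtain ⟨a, b, hab⟩ := cop
      have : (α i).1 * (α j).2 - (α i).2 * (α j).1 =
          (a * (α i).1 + b * (α i).2) * L j - (a * (α j).1 + b * (α j).2) * L i := by
        simp only [hL]
        linear_combination (-((α i).1 * (α j).2 - (α i).2 * (α j).1)) * hab
      rw [this]
      exact dvd_sub (a2.mul_left _) (a1.mul_left _)
  set H : ℝ := ((max x.num.natAbs x.den : ℕ) : ℝ) with hHd
  have H1 : |(x.num : ℝ)| ≤ H := by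
    rw [← hM, ← Int.cast_abs]; exact_mod_cast le_max_left _ _
  have H2 : |(x.den : ℝ)| ≤ H := by
    rw [← hM]; exact_mod_cast le_max_right _ _
  have h3 : ∀ l, Real.log (L l) ≤ Real.log (A l) + Real.log H := by
    intro l
    have b0 : (0 : ℝ) < |(L l : ℝ)| := abs_pos.2 (by exact_mod_cast hL0 l)
    have b1 : |(L l : ℝ)| ≤ A l * H := by
      simp only [hL, hA]
      push_cast
      refine (abs_sub _ _).trans ?_
      rw [abs_mul, abs_mul]
      nlinarith [mul_le_mul_of_nonneg_right H1 (abs_nonneg ((α l).2 : ℝ)),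
        mul_le_mul_of_nonneg_right H2 (abs_nonneg ((α l).1 : ℝ))]
    have b2 := (b0.trans_le b1).ne'
    rw [← Real.log_mul (left_ne_zero_of_mul b2) (right_ne_zero_of_mul b2), ← Real.log_abs]
    exact Real.log_le_log b0 b1
  have h4 : Real.log |((c * ∏ i, L i : ℤ) : ℝ)| ≤
      Real.log |(c : ℝ)| + (∑ i, Real.log (A i) + (2 * g + 2) * Real.log H) := by
    push_cast
    rw [Real.log_abs, Real.log_abs, Real.log_mul (by exact_mod_cast left_ne_zero_of_mul hN0)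
      (by exact_mod_cast right_ne_zero_of_mul hN0), Real.log_prod fun i _ => by exact_mod_cast hL0 i]
    refine add_le_add le_rfl ((Finset.sum_le_sum fun l _ => h3 l).trans (le_of_eq ?_))
    rw [Finset.sum_add_distrib]; simp
  simp only
  rw [hM]
  push_cast
  linarith

end Pool.Agent.H255Z.Quad
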