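import Mathlib

/-! Uniform bound for the number of solutions of `z ^ 2 - D * m ^ 2 = N` in a box. -/

namespace Pool.Agent.H255Z.Quad

open Finset

theorem two_pts (A B N x' y' c : ℤ) (hN : N ≠ 0) (hy' : y' ≠ 0) (h' : A * x' ^ 2 - B * y' ^ 2 = N)
    (T : Finset (ℤ × ℤ))
    (hT : ∀ P ∈ T, A * P.1 ^ 2 - B * P.2 ^ 2 = N ∧ P.1 * y' - x' * P.2 = c) : T.card ≤ 2 := by
  by_contra hcon
  obtain ⟨P, hP, Q, hQ, R, hR, h1, h2, h3⟩ := Finset.two_lt_card.1 (not_le.1 hcon)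
  have q : ∀ P ∈ T, N * P.2 ^ 2 + 2 * A * c * x' * P.2 + (A * c ^ 2 - N * y' ^ 2) = 0 := by
    intro P hP
    obtain ⟨a1, a2⟩ := hT P hP
    have a3 : c = P.1 * y' - x' * P.2 := a2.symm
    rw [a3]
    linear_combination y' ^ 2 * a1 - P.2 ^ 2 * h'
  have ne : ∀ P ∈ T, ∀ Q ∈ T, P ≠ Q → P.2 - Q.2 ≠ 0 := by
    intro P hP Q hQ h e
    refine h (Prod.ext (mul_right_cancel₀ hy' ?_) (by linarith))
    linear_combination (hT P hP).2 - (hT Q hQ).2 + x' * e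
  have e1 : N * (P.2 + Q.2) + 2 * A * c * x' = 0 :=
    mul_left_cancel₀ (ne P hP Q hQ h1) (by linear_combination q P hP - q Q hQ)
  have e2 : N * (P.2 + R.2) + 2 * A * c * x' = 0 :=
    mul_left_cancel₀ (ne P hP R hR h2) (by linear_combination q P hP - q R hR)
  exact mul_ne_zero hN (ne Q hQ R hR h3) (by linear_combination e1 - e2)

theorem det_bound (A B N x y x' y' M : ℤ) (hA : A ≠ 0) (hB : B ≠ 0) (hx : 0 ≤ x) (hx' : 0 ≤ x')
    (hM : 1 ≤ M) (h1 : M ≤ y) (h2 : y ≤ 2 * M) (h3 : M ≤ y') (h4 : y' ≤ 2 * M)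
    (e : A * x ^ 2 - B * y ^ 2 = N) (e' : A * x' ^ 2 - B * y' ^ 2 = N) :
    |x * y' - x' * y| ≤ 8 * |N| := by
  have a1 : 1 ≤ |A| := Int.one_le_abs hA
  have b1 : 1 ≤ |B| := Int.one_le_abs hB
  have s0 : 0 ≤ x * y' := mul_nonneg hx (by linarith)
  have s1 : 0 ≤ x' * y := mul_nonneg hx' (by linarith)
  have hM2 : 0 < M ^ 2 := by positivity
  by_cases hc : M ^ 2 ≤ 2 * (|A| * (x * y' + x' * y))
  · have k1 : A * (x * y' + x' * y) * (x * y' - x' * y) = N * (y' ^ 2 - y ^ 2) := by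
      linear_combination y' ^ 2 * e - y ^ 2 * e'
    have k2 := congrArg abs k1
    rw [abs_mul, abs_mul, abs_mul, abs_of_nonneg (add_nonneg s0 s1)] at k2
    have k3 : |y' ^ 2 - y ^ 2| ≤ 4 * M ^ 2 := abs_le.2 ⟨by nlinarith, by nlinarith⟩
    have k4 := mul_le_mul_of_nonneg_left k3 (abs_nonneg N)
    have k5 := mul_le_mul_of_nonneg_right hc (abs_nonneg (x * y' - x' * y))
    refine le_of_mul_le_mul_left ?_ hM2
    nlinarith
  · push Not at hc
    have k1 : |x * y' - x' * y| ≤ x * y' + x' * y := abs_le.2 ⟨by linarith, by linarith⟩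
    have k2 : x * y' + x' * y ≤ |A| * (x * y' + x' * y) := by nlinarith
    have k3 : 2 * (|A| * x) ≤ M := by
      refine le_of_mul_le_mul_left ?_ (by linarith : 0 < M)
      have : |A| * x * M ≤ |A| * x * y' := mul_le_mul_of_nonneg_left h3 (by positivity)
      nlinarith [mul_nonneg (abs_nonneg A) s1]
    have k4 : |B| * y ^ 2 ≤ |N| + |A| * x ^ 2 := by
      have : B * y ^ 2 = -N + A * x ^ 2 := by linarith
      have t := abs_add_le (-N) (A * x ^ 2)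
      rw [← this, abs_mul, abs_mul, abs_neg, abs_of_nonneg (sq_nonneg y),
        abs_of_nonneg (sq_nonneg x)] at t
      exact t
    have k5 : 4 * (|A| * x ^ 2) ≤ M ^ 2 := by
      have t0 : 0 ≤ |A| * x := by positivity
      have t1 : |A| * x ^ 2 ≤ (|A| * x) ^ 2 := by nlinarith [sq_nonneg x]
      nlinarith
    have k6 : M ^ 2 ≤ |B| * y ^ 2 := by nlinarith
    nlinarith [abs_nonneg N]

theorem dvd_two_det (A B N x0 y0 x y x' y' : ℤ) (hN : N ≠ 0) (hA : IsCoprime N A)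
    (hy0 : IsCoprime N y0) (hx : IsCoprime N x)
    (e0 : A * x0 ^ 2 - B * y0 ^ 2 = N) (e : A * x ^ 2 - B * y ^ 2 = N)
    (e' : A * x' ^ 2 - B * y' ^ 2 = N)
    (hg : Int.gcd N (x * y0 - x0 * y) = Int.gcd N (x' * y0 - x0 * y')) :
    N ∣ 2 * (x * y' - x' * y) := by
  have key : ∀ x y : ℤ, A * x ^ 2 - B * y ^ 2 = N → ∀ h : ℤ,
      N = Int.gcd N (x * y0 - x0 * y) * h → h ∣ x * y0 + x0 * y := by
    intro x y e h hh
    have k1 : N ∣ (x * y0 - x0 * y) * (x * y0 + x0 * y) := hA.dvd_of_dvd_mul_left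
      ⟨y0 ^ 2 - y ^ 2, by linear_combination y0 ^ 2 * e - y ^ 2 * e0⟩
    have k2 : N ∣ Int.gcd N (x * y0 - x0 * y) * (x * y0 + x0 * y) := by
      rw [Int.gcd_eq_gcd_ab, add_mul, mul_assoc, mul_assoc, mul_left_comm (x * y0 - x0 * y)]
      exact dvd_add (Dvd.intro _ rfl) (k1.mul_left _)
    have k3 : ((Int.gcd N (x * y0 - x0 * y) : ℕ) : ℤ) ≠ 0 := fun z => hN (by rw [hh, z, zero_mul])
    nth_rw 1 [hh] at k2
    exact (mul_dvd_mul_iff_left k3).1 k2
  obtain ⟨h, hh⟩ := Int.gcd_dvd_left N (x * y0 - x0 * y)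
  have h1 := key x y e h hh
  have h2 := key x' y' e' h (hg ▸ hh)
  have g1 := Int.gcd_dvd_right N (x * y0 - x0 * y)
  have g2 := Int.gcd_dvd_right N (x' * y0 - x0 * y')
  rw [← hg] at g2
  generalize ((Int.gcd N (x * y0 - x0 * y) : ℕ) : ℤ) = g at hh g1 g2
  have cg : IsCoprime g y0 := (hh ▸ hy0 : IsCoprime (g * h) y0).of_mul_left_left
  have ch : IsCoprime h y0 := (hh ▸ hy0 : IsCoprime (g * h) y0).of_mul_left_right
  have d1 : g ∣ x * y' - x' * y := cg.dvd_of_dvd_mul_left (by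
    have : y0 * (x * y' - x' * y) = y' * (x * y0 - x0 * y) - y * (x' * y0 - x0 * y') := by ring
    rw [this]; exact dvd_sub (g1.mul_left _) (g2.mul_left _))
  have d2 : h ∣ x * y' - x' * y := ch.dvd_of_dvd_mul_left (by
    have : y0 * (x * y' - x' * y) = y' * (x * y0 + x0 * y) - y * (x' * y0 + x0 * y') := by ring
    rw [this]; exact dvd_sub (h1.mul_left _) (h2.mul_left _))
  have cN : IsCoprime N (x * y0) := hx.mul_right hy0
  refine cN.dvd_of_dvd_mul_left ?_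
  obtain ⟨a, ha⟩ := g1
  obtain ⟨b, hb⟩ := h1
  obtain ⟨c, hc⟩ := d1
  obtain ⟨d, hd⟩ := d2
  refine ⟨a * d + b * c, ?_⟩
  rw [hh]
  linear_combination (x * y' - x' * y) * ha + (x * y' - x' * y) * hb + g * a * hd + h * b * hc

theorem prim_count (A B N : ℤ) (Y : ℕ) (hN : N ≠ 0) (hA0 : A ≠ 0) (hB0 : B ≠ 0)
    (hA : IsCoprime N A) (T : Finset (ℤ × ℤ))
    (hT : ∀ P ∈ T, 0 ≤ P.1 ∧ 1 ≤ P.2 ∧ P.2 ≤ Y ∧ IsCoprime N P.1 ∧ IsCoprime N P.2 ∧
      A * P.1 ^ 2 - B * P.2 ^ 2 = N) :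
    T.card ≤ 66 * (N.natAbs.divisors.card * (Nat.log 2 Y + 1)) := by
  rcases T.eq_empty_or_nonempty with rfl | ⟨P0, hP0⟩
  · simp
  have e1 : (N.natAbs.divisors ×ˢ range (Nat.log 2 Y + 1)).card =
      N.natAbs.divisors.card * (Nat.log 2 Y + 1) := by rw [card_product, card_range]
  rw [← e1]
  refine Finset.card_le_mul_card_image_of_maps_to
    (f := fun P => (Int.gcd N (P.1 * P0.2 - P0.1 * P.2), Nat.log 2 P.2.toNat)) ?_ 66 ?_
  · intro P hP
    obtain ⟨-, a2, a3, -⟩ := hT P hP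
    refine mem_product.2 ⟨Nat.mem_divisors.2 ⟨Nat.gcd_dvd_left _ _, by omega⟩,
      mem_range.2 (Nat.lt_succ_of_le (Nat.log_mono_right (b := 2) (show P.2.toNat ≤ Y by omega)))⟩
  · intro t _
    set F := T.filter fun P => (Int.gcd N (P.1 * P0.2 - P0.1 * P.2), Nat.log 2 P.2.toNat) = t
      with hF
    rcases F.eq_empty_or_nonempty with h | ⟨Q, hQ⟩
    · rw [h]; simp
    have e2 : 66 = 2 * (Icc (-16 : ℤ) 16).card := by simp
    rw [e2]
    obtain ⟨hQ1, hQ2⟩ := mem_filter.1 hQ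
    obtain ⟨q1, q2, q3, q4, q5, q6⟩ := hT Q hQ1
    have hdv : ∀ P ∈ F, N ∣ 2 * (P.1 * Q.2 - Q.1 * P.2) ∧ |P.1 * Q.2 - Q.1 * P.2| ≤ 8 * |N| := by
      intro P hP
      obtain ⟨hP1, hP2⟩ := mem_filter.1 hP
      obtain ⟨p1, p2, p3, p4, p5, p6⟩ := hT P hP1
      obtain ⟨z1, z2, z3, z4, z5, z6⟩ := hT P0 hP0
      obtain ⟨w1, w2⟩ := Prod.ext_iff.1 (hP2.trans hQ2.symm)
      simp only at w1 w2
      refine ⟨dvd_two_det A B N P0.1 P0.2 _ _ _ _ hN hA z5 p4 z6 p6 q6 w1, ?_⟩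
      have l1 := Nat.pow_log_le_self 2 (show P.2.toNat ≠ 0 by omega)
      have l2 := Nat.lt_pow_succ_log_self (b := 2) (by norm_num) P.2.toNat
      have l3 := Nat.pow_log_le_self 2 (show Q.2.toNat ≠ 0 by omega)
      have l4 := Nat.lt_pow_succ_log_self (b := 2) (by norm_num) Q.2.toNat
      have l5 : 1 ≤ 2 ^ Nat.log 2 Q.2.toNat := Nat.one_le_two_pow
      rw [w2] at l1 l2
      rw [Nat.succ_eq_add_one, pow_succ] at l2 l4
      generalize 2 ^ Nat.log 2 Q.2.toNat = M at l1 l2 l3 l4 l5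
      exact det_bound A B N _ _ _ _ M hA0 hB0 p1 q1 (by omega) (by omega) (by omega) (by omega)
        (by omega) p6 q6
    refine Finset.card_le_mul_card_image_of_maps_to
      (f := fun P => 2 * (P.1 * Q.2 - Q.1 * P.2) / N) ?_ 2 ?_
    · intro P hP
      obtain ⟨⟨k, hk⟩, h2⟩ := hdv P hP
      rw [hk, Int.mul_ediv_cancel_left _ hN, mem_Icc, ← abs_le]
      have h3 := congrArg abs hk
      rw [abs_mul, abs_mul, abs_two] at h3
      refine le_of_mul_le_mul_left ?_ (abs_pos.2 hN)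
      linarith
    · intro k _
      refine two_pts A B N Q.1 Q.2 (N * k / 2) hN (by omega) q6 _ fun P hP => ?_
      obtain ⟨hP1, hP2⟩ := mem_filter.1 hP
      refine ⟨(hT P (mem_filter.1 hP1).1).2.2.2.2.2, ?_⟩
      have h4 := Int.mul_ediv_cancel' (hdv P hP1).1
      rw [hP2] at h4
      omega

theorem split_sol (D N z m : ℤ) (hD : Squarefree D) (hm : m ≠ 0) (e : z ^ 2 - D * m ^ 2 = N) :
    ∃ (g h : ℕ) (x y B N' : ℤ), 1 ≤ g ∧ 1 ≤ h ∧ D = h * B ∧ N = g * (g * (h * N')) ∧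
      |z| = g * (h * x) ∧ |m| = g * y ∧ IsCoprime N' h ∧ IsCoprime N' x ∧ IsCoprime N' y ∧
      h * x ^ 2 - B * y ^ 2 = N' := by
  have hg : 0 < Int.gcd |z| |m| := Int.gcd_pos_of_ne_zero_right _ (abs_ne_zero.2 hm)
  obtain ⟨u, y, c1, hu, hy⟩ := Int.exists_gcd_one hg
  have hh : 0 < Int.gcd u D := Int.gcd_pos_of_ne_zero_right _ hD.ne_zero
  obtain ⟨x, B, c2, hx, hB⟩ := Int.exists_gcd_one hh
  rw [← Int.isCoprime_iff_gcd_eq_one] at c1 c2
  generalize Int.gcd |z| |m| = g at *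
  generalize Int.gcd u D = h at *
  have c3 : IsCoprime (h : ℤ) B := by
    rw [hB] at hD
    exact (isRelPrime_iff_isCoprime.1 (squarefree_mul_iff.1 hD).1).symm
  rw [hx] at c1
  have c4 : IsCoprime x y := c1.of_mul_left_left
  have c5 : IsCoprime (h : ℤ) y := c1.of_mul_left_right
  refine ⟨g, h, x, y, B, h * x ^ 2 - B * y ^ 2, hg, hh, by rw [hB]; ring, ?_,
    by rw [hu, hx]; ring, by rw [hy]; ring, ?_, ?_, ?_, rfl⟩
  · rw [← e, ← sq_abs z, ← sq_abs m, hu, hy, hx, hB]; ring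
  · have : (h : ℤ) * x ^ 2 - B * y ^ 2 = -(B * y ^ 2) + h * x ^ 2 := by ring
    rw [this]
    exact ((c3.symm.mul_left c5.symm.pow_left).neg_left).add_mul_left_left _
  · have : (h : ℤ) * x ^ 2 - B * y ^ 2 = -(B * y ^ 2) + x * (h * x) := by ring
    rw [this]
    exact ((c2.symm.mul_left c4.symm.pow_left).neg_left).add_mul_left_left _
  · have : (h : ℤ) * x ^ 2 - B * y ^ 2 = h * x ^ 2 + y * (-(B * y)) := by ring
    rw [this]
    exact (c5.mul_left c4.pow_left).add_mul_left_left _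

theorem nf_count (D N : ℤ) (Y : ℕ) (hD : Squarefree D) (hN : N ≠ 0) (T : Finset (ℤ × ℤ))
    (hT : ∀ P ∈ T, P.2 ≠ 0 ∧ |P.2| ≤ Y ∧ P.1 ^ 2 - D * P.2 ^ 2 = N) :
    T.card ≤ 264 * (N.natAbs.divisors.card ^ 3 * (Nat.log 2 Y + 1)) := by
  classical
  have h1 : ∀ P : ℤ × ℤ, ∃ (g h : ℕ) (x y B N' : ℤ), P ∈ T → 1 ≤ g ∧ 1 ≤ h ∧ D = h * B ∧
      N = g * (g * (h * N')) ∧ |P.1| = g * (h * x) ∧ |P.2| = g * y ∧ IsCoprime N' h ∧
      IsCoprime N' x ∧ IsCoprime N' y ∧ h * x ^ 2 - B * y ^ 2 = N' := by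
    intro P
    by_cases hP : P ∈ T
    · obtain ⟨g, h, x, y, B, N', hh⟩ := split_sol D N P.1 P.2 hD (hT P hP).1 (hT P hP).2.2
      exact ⟨g, h, x, y, B, N', fun _ => hh⟩
    · exact ⟨0, 0, 0, 0, 0, 0, fun h => absurd h hP⟩
  choose g h x y B N' hs using h1
  have e1 : 264 * (N.natAbs.divisors.card ^ 3 * (Nat.log 2 Y + 1)) =
      (4 * (66 * (N.natAbs.divisors.card * (Nat.log 2 Y + 1)))) *
        (N.natAbs.divisors ×ˢ N.natAbs.divisors).card := by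
    rw [card_product]; ring
  rw [e1]
  refine Finset.card_le_mul_card_image_of_maps_to (f := fun P => (g P, h P)) ?_ _ ?_
  · intro P hP
    obtain ⟨-, -, -, a4, -⟩ := hs P hP
    refine mem_product.2 ⟨Nat.mem_divisors.2 ⟨Int.natCast_dvd.1 ⟨_, a4⟩, by omega⟩,
      Nat.mem_divisors.2 ⟨Int.natCast_dvd.1 ⟨g P * (g P * N' P), by rw [a4]; ring⟩, by omega⟩⟩
  · intro t _
    set F := T.filter fun P => (g P, h P) = t with hF
    rcases F.eq_empty_or_nonempty with h | ⟨Q, hQ⟩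
    · rw [h]; simp
    obtain ⟨hQ1, hQ2⟩ := mem_filter.1 hQ
    obtain ⟨q1, q2, q3, q4, q5, q6, q7, q8, q9, q10⟩ := hs Q hQ1
    have hN' : N' Q ≠ 0 := fun z => hN (by rw [q4, z]; ring)
    have hB : B Q ≠ 0 := fun z => hD.ne_zero (by rw [q3, z]; ring)
    have g0 : (0 : ℤ) < g Q := by exact_mod_cast q1
    have h0 : (0 : ℤ) < h Q := by exact_mod_cast q2
    have same : ∀ P ∈ F, g P = g Q ∧ h P = h Q := fun P hP =>
      Prod.ext_iff.1 ((mem_filter.1 hP).2.trans hQ2.symm)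
    have e2 : (F.image fun P => (x P, y P)).card ≤
        66 * ((N' Q).natAbs.divisors.card * (Nat.log 2 Y + 1)) := by
      refine prim_count (h Q) (B Q) (N' Q) Y hN' h0.ne' hB q7 _ fun R hR => ?_
      obtain ⟨P, hP, rfl⟩ := mem_image.1 hR
      have hPT := (mem_filter.1 hP).1
      obtain ⟨p1, p2, p3, p4, p5, p6, p7, p8, p9, p10⟩ := hs P hPT
      obtain ⟨s1, s2⟩ := same P hP
      rw [s1] at p4 p5 p6
      rw [s2] at p3 p4 p5 p10
      have s3 : B P = B Q := mul_left_cancel₀ h0.ne' (p3.symm.trans q3)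
      have s4 : N' P = N' Q := mul_left_cancel₀ h0.ne' (mul_left_cancel₀ g0.ne'
        (mul_left_cancel₀ g0.ne' (p4.symm.trans q4)))
      rw [s3, s4] at p10
      rw [s4] at p8 p9
      have a1 := abs_pos.2 (hT P hPT).1
      have a2 := (hT P hPT).2.1
      have a3 := abs_nonneg P.1
      rw [p6] at a1 a2
      rw [p5] at a3
      have a4 : 0 < y P := (mul_pos_iff_of_pos_left g0).1 a1
      exact ⟨(mul_nonneg_iff_of_pos_left h0).1 ((mul_nonneg_iff_of_pos_left g0).1 a3), a4,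
        by nlinarith, p8, p9, p10⟩
    have e3 : (N' Q).natAbs.divisors.card ≤ N.natAbs.divisors.card :=
      card_le_card (Nat.divisors_subset_of_dvd (by omega)
        (Int.natAbs_dvd_natAbs.2 ⟨g Q * (g Q * h Q), by rw [q4]; ring⟩))
    refine (Finset.card_le_mul_card_image (f := fun P => (x P, y P)) F 4 fun R _ => ?_).trans
      (Nat.mul_le_mul_left _ (e2.trans (Nat.mul_le_mul_left _ (Nat.mul_le_mul_right _ e3))))
    refine le_trans (card_le_card (t := ({g Q * (h Q * R.1), -(g Q * (h Q * R.1))} : Finset ℤ) ×ˢ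
      ({g Q * R.2, -(g Q * R.2)} : Finset ℤ)) fun P hP => ?_) ?_
    · obtain ⟨hP1, hP2⟩ := mem_filter.1 hP
      obtain ⟨-, -, -, -, p5, p6, -⟩ := hs P (mem_filter.1 hP1).1
      obtain ⟨s1, s2⟩ := same P hP1
      rw [s1] at p5 p6
      rw [s2] at p5
      rw [← hP2]
      simp only [mem_product, mem_insert, mem_singleton]
      rw [← p5, ← p6]
      exact ⟨(abs_choice P.1).imp Eq.symm (fun h => by rw [h, neg_neg]),
        (abs_choice P.2).imp Eq.symm (fun h => by rw [h, neg_neg])⟩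
    · rw [card_product]
      exact Nat.mul_le_mul Finset.card_le_two Finset.card_le_two

end Pool.Agent.H255Z.Quad
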