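import Pool.Agent.H255Z.Quad.Rad
import Pool.Agent.H255Z.Quad.NF
import Pool.Agent.H255Z.Sum.A

/-! The exceptional set for quadratic points on the projective line. -/

namespace Pool.Agent.H255Z.Quad

open Finset NumberField Module Pool.Agent.H255Z.Sum

/-- value of a binary quadratic form -/
def Fv (P : ℤ × ℤ) (f : ℤ × ℤ × ℤ) : ℤ := f.1 * P.1 ^ 2 + f.2.1 * P.1 * P.2 + f.2.2 * P.2 ^ 2

/-- polar form -/
def Pol (P Q : ℤ × ℤ) (f : ℤ × ℤ × ℤ) : ℤ :=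
  2 * f.1 * P.1 * Q.1 + f.2.1 * (P.1 * Q.2 + Q.1 * P.2) + 2 * f.2.2 * P.2 * Q.2

/-- determinant -/
def dt (P Q : ℤ × ℤ) : ℤ := P.1 * Q.2 - P.2 * Q.1

theorem inj_pol {P Q : ℤ × ℤ} (h : dt P Q ≠ 0) {f g : ℤ × ℤ × ℤ} (h1 : Fv P f = Fv P g)
    (h2 : Fv Q f = Fv Q g) (h3 : Pol P Q f = Pol P Q g) : f = g := by
  have h0 := pow_ne_zero 2 h
  simp only [Fv, Pol, dt] at *
  refine Prod.ext (mul_left_cancel₀ h0 ?_) (Prod.ext (mul_left_cancel₀ h0 ?_)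
    (mul_left_cancel₀ h0 ?_))
  · linear_combination Q.2 ^ 2 * h1 - P.2 * Q.2 * h3 + P.2 ^ 2 * h2
  · linear_combination -2 * Q.1 * Q.2 * h1 + (P.1 * Q.2 + Q.1 * P.2) * h3 - 2 * P.1 * P.2 * h2
  · linear_combination Q.1 ^ 2 * h1 - P.1 * Q.1 * h3 + P.1 ^ 2 * h2

theorem inj_three {P Q R : ℤ × ℤ} (h : dt P Q ≠ 0) (h' : dt P R ≠ 0) (h'' : dt Q R ≠ 0)
    {f g : ℤ × ℤ × ℤ} (h1 : Fv P f = Fv P g) (h2 : Fv Q f = Fv Q g) (h3 : Fv R f = Fv R g) :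
    f = g := by
  refine inj_pol h h1 h2 (mul_left_cancel₀ (mul_ne_zero h' h'') ?_)
  simp only [Fv, Pol, dt] at *
  linear_combination (Q.1 * R.2 - Q.2 * R.1) ^ 2 * h1 + (P.1 * R.2 - P.2 * R.1) ^ 2 * h2 -
    (P.1 * Q.2 - P.2 * Q.1) ^ 2 * h3

theorem countA {P Q R : ℤ × ℤ} (h : dt P Q ≠ 0) (h' : dt P R ≠ 0) (h'' : dt Q R ≠ 0)
    (U : Finset ℤ) (T : Finset (ℤ × ℤ × ℤ)) (hT : ∀ f ∈ T, Fv P f ∈ U ∧ Fv Q f ∈ U ∧ Fv R f ∈ U) :
    T.card ≤ U.card ^ 3 := by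
  have e : U.card ^ 3 = (U ×ˢ U ×ˢ U).card := by rw [card_product, card_product]; ring
  rw [e]
  refine Finset.card_le_card_of_injOn (fun f => (Fv P f, Fv Q f, Fv R f)) (fun f hf => ?_) ?_
  · obtain ⟨a, b, c⟩ := hT f hf
    simp [a, b, c]
  · intro f _ g _ e
    simp only [Prod.mk.injEq] at e
    exact inj_three h h' h'' e.1 e.2.1 e.2.2

theorem countB {P Q : ℤ × ℤ} (h : dt P Q ≠ 0) (U : Finset ℤ) (Z B : ℕ) (hU : ∀ y ∈ U, y ≠ 0)
    (hB : ∀ y ∈ U, ∀ y' ∈ U,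
      264 * ((4 * y * y').natAbs.divisors.card ^ 3 * (Nat.log 2 Z + 1)) ≤ B)
    (T : Finset (ℤ × ℤ × ℤ)) (hT : ∀ f ∈ T, Fv P f ∈ U ∧ Fv Q f ∈ U ∧ ∃ d m : ℤ, d ∈ U ∧
      Squarefree d ∧ m ≠ 0 ∧ |m| ≤ Z ∧ Pol P Q f ^ 2 - d * m ^ 2 = 4 * Fv P f * Fv Q f) :
    T.card ≤ B * U.card ^ 3 := by
  classical
  have e : U.card ^ 3 = (U ×ˢ U ×ˢ U).card := by rw [card_product, card_product]; ring
  have h1 : ∀ f : ℤ × ℤ × ℤ, ∃ d m : ℤ, f ∈ T → d ∈ U ∧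
      Squarefree d ∧ m ≠ 0 ∧ |m| ≤ Z ∧ Pol P Q f ^ 2 - d * m ^ 2 = 4 * Fv P f * Fv Q f := by
    intro f
    by_cases hf : f ∈ T
    · obtain ⟨d, m, hh⟩ := (hT f hf).2.2
      exact ⟨d, m, fun _ => hh⟩
    · exact ⟨0, 0, fun h => absurd h hf⟩
  choose d m hd using h1
  rw [e]
  refine Finset.card_le_mul_card_image_of_maps_to (f := fun f => (Fv P f, Fv Q f, d f))
    (fun f hf => ?_) B fun t ht => ?_
  · obtain ⟨a, b, -⟩ := hT f hf
    simp [a, b, (hd f hf).1]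
  obtain ⟨y, y', d0⟩ := t
  simp only [mem_product] at ht
  set G := T.filter fun f => (Fv P f, Fv Q f, d f) = (y, y', d0) with hG
  rcases G.eq_empty_or_nonempty with h0 | ⟨g, hg⟩
  · rw [h0]; simp
  have hm : ∀ f ∈ G, f ∈ T ∧ Fv P f = y ∧ Fv Q f = y' ∧ d f = d0 := fun f hf => by
    simpa [hG] using hf
  have hinj : Set.InjOn (fun f => (Pol P Q f, m f)) (G : Set (ℤ × ℤ × ℤ)) := by
    intro f hf f' hf' e
    obtain ⟨-, a1, a2, -⟩ := hm f hf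
    obtain ⟨-, b1, b2, -⟩ := hm f' hf'
    exact inj_pol h (a1.trans b1.symm) (a2.trans b2.symm) (Prod.ext_iff.1 e).1
  rw [← Finset.card_image_of_injOn hinj]
  refine (nf_count d0 (4 * y * y') Z ((hm g hg).2.2.2 ▸ (hd g (hm g hg).1).2.1)
    (mul_ne_zero (mul_ne_zero (by norm_num) (hU y ht.1)) (hU y' ht.2.1)) _ fun R hR => ?_).trans
    (hB y ht.1 y' ht.2.1)
  obtain ⟨f, hf, rfl⟩ := mem_image.1 hR
  obtain ⟨a0, a1, a2, a3⟩ := hm f hf
  obtain ⟨-, -, c1, c2, c3⟩ := hd f a0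
  rw [a1, a2, a3] at c3
  exact ⟨c1, c2, c3⟩

/-- the two ways in which a form is nearly determined -/
def Exc {q : ℕ} (α : Fin q → ℤ × ℤ) (U : Finset ℤ) (Z : ℕ) (f : ℤ × ℤ × ℤ) : Prop :=
  ∃ i j l, i ≠ j ∧ Fv (α i) f ∈ U ∧ Fv (α j) f ∈ U ∧
    ((i ≠ l ∧ j ≠ l ∧ Fv (α l) f ∈ U) ∨ ∃ d m : ℤ, d ∈ U ∧ Squarefree d ∧ m ≠ 0 ∧ |m| ≤ Z ∧
      Pol (α i) (α j) f ^ 2 - d * m ^ 2 = 4 * Fv (α i) f * Fv (α j) f)

theorem countE {q : ℕ} (α : Fin q → ℤ × ℤ) (hne : ∀ i j, i ≠ j → dt (α i) (α j) ≠ 0)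
    (U : Finset ℤ) (Z B : ℕ) (hU : ∀ y ∈ U, y ≠ 0) (hB : ∀ y ∈ U, ∀ y' ∈ U,
      264 * ((4 * y * y').natAbs.divisors.card ^ 3 * (Nat.log 2 Z + 1)) ≤ B)
    (T : Finset (ℤ × ℤ × ℤ)) (hT : ∀ f ∈ T, Exc α U Z f) :
    T.card ≤ q ^ 3 * ((1 + B) * U.card ^ 3) := by
  classical
  have e : q ^ 3 = (univ : Finset (Fin q × Fin q × Fin q)).card := by simp; ring
  have h1 : T ⊆ univ.biUnion fun t : Fin q × Fin q × Fin q =>
      (T.filter fun f => t.1 ≠ t.2.1 ∧ t.1 ≠ t.2.2 ∧ t.2.1 ≠ t.2.2 ∧ Fv (α t.1) f ∈ U ∧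
        Fv (α t.2.1) f ∈ U ∧ Fv (α t.2.2) f ∈ U) ∪
      (T.filter fun f => t.1 ≠ t.2.1 ∧ Fv (α t.1) f ∈ U ∧ Fv (α t.2.1) f ∈ U ∧ ∃ d m : ℤ, d ∈ U ∧
        Squarefree d ∧ m ≠ 0 ∧ |m| ≤ Z ∧ Pol (α t.1) (α t.2.1) f ^ 2 - d * m ^ 2 =
          4 * Fv (α t.1) f * Fv (α t.2.1) f) := by
    intro f hf
    obtain ⟨i, j, l, a1, a2, a3, a4⟩ := hT f hf
    refine mem_biUnion.2 ⟨(i, j, l), mem_univ _, mem_union.2 (a4.imp (fun h => ?_) fun h => ?_)⟩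
    · exact mem_filter.2 ⟨hf, a1, h.1, h.2.1, a2, a3, h.2.2⟩
    · exact mem_filter.2 ⟨hf, a1, a2, a3, h⟩
  rw [e]
  refine (card_le_card h1).trans (Finset.card_biUnion_le_card_mul _ _ _ fun t _ => ?_)
  rw [add_mul, one_mul]
  refine (card_union_le _ _).trans (Nat.add_le_add ?_ ?_)
  · by_cases h : t.1 ≠ t.2.1 ∧ t.1 ≠ t.2.2 ∧ t.2.1 ≠ t.2.2
    · exact countA (hne _ _ h.1) (hne _ _ h.2.1) (hne _ _ h.2.2) U _
        fun f hf => (mem_filter.1 hf).2.2.2.2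
    · rw [Finset.filter_false_of_mem fun f _ h' => h ⟨h'.1, h'.2.1, h'.2.2.1⟩]; simp
  · by_cases h : t.1 ≠ t.2.1
    · exact countB (hne _ _ h) U Z B hU hB _ fun f hf => (mem_filter.1 hf).2.2
    · rw [Finset.filter_false_of_mem fun f _ h' => h h'.1]; simp

theorem three_small {ι : Type*} [Fintype ι] [DecidableEq ι] (h : 3 ≤ Fintype.card ι) (w : ι → ℝ) :
    ∃ x y z, x ≠ y ∧ x ≠ z ∧ y ≠ z ∧ (w x + w y + w z) * Fintype.card ι ≤ 3 * ∑ i, w i := by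
  have c0 : (univ : Finset ι).card = Fintype.card ι := card_univ
  obtain ⟨x, hx, mx⟩ := exists_min_image univ w (card_pos.1 (by omega))
  have c1 := card_erase_of_mem hx
  obtain ⟨y, hy, my⟩ := exists_min_image (univ.erase x) w (card_pos.1 (by omega))
  have c2 := card_erase_of_mem hy
  obtain ⟨z, hz, mz⟩ := exists_min_image ((univ.erase x).erase y) w (card_pos.1 (by omega))
  have c3 := card_erase_of_mem hz
  have hz' := mem_erase.1 hz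
  refine ⟨x, y, z, (mem_erase.1 hy).1.symm, (mem_erase.1 hz'.2).1.symm, hz'.1.symm, ?_⟩
  have s1 := Finset.add_sum_erase _ w hx
  have s2 := Finset.add_sum_erase _ w hy
  have s3 := Finset.add_sum_erase _ w hz
  have s4 := Finset.card_nsmul_le_sum (((univ.erase x).erase y).erase z) w (w z)
    fun i hi => mz i (mem_erase.1 hi).2
  have c4 : (Fintype.card ι : ℝ) = (((univ.erase x).erase y).erase z).card + 3 := by
    have : Fintype.card ι = (((univ.erase x).erase y).erase z).card + 3 := by omega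
    exact_mod_cast this
  rw [nsmul_eq_mul] at s4
  have t1 := mx z (mem_univ _)
  have t2 := my z hz'.2
  rw [c4]
  have t0 : (0 : ℝ) ≤ (((univ.erase x).erase y).erase z).card := Nat.cast_nonneg _
  nlinarith [mul_le_mul_of_nonneg_left t1 t0, mul_le_mul_of_nonneg_left t2 t0]

theorem reduceQ {K : Type*} [Field K] [NumberField K] (h2 : finrank ℚ K = 2) {q : ℕ} (hq : 2 ≤ q)
    (α : Fin q → ℤ × ℤ) (hcop : ∀ l, IsCoprime (α l).1 (α l).2)
    (hne : ∀ i j, i ≠ j → dt (α i) (α j) ≠ 0) (S : Finset ℕ) (hS : ∀ p ∈ S, p.Prime) (Δ W X : ℕ)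
    (hΔ : ∀ i j, i ≠ j → dt (α i) (α j) ∣ Δ) (hW : 8 ≤ W)
    (hW1 : ∀ i, 3 * ((α i).1 ^ 2 + (α i).2 ^ 2) ≤ W) (hW2 : ∀ i j, 8 * dt (α i) (α j) ^ 2 ≤ W)
    (hX : 1 ≤ X) (β : K) (hβ : β ∉ Set.range (algebraMap ℚ K)) (hH : Height.mulHeight₁ β ≤ X) :
    ∃ (f : ℤ × ℤ × ℤ) (ρ : ℕ), f.1 ≠ 0 ∧ f.1 * β ^ 2 + f.2.1 * β + f.2.2 = 0 ∧
      |f.1| ≤ 2 * X ∧ |f.2.1| ≤ 2 * X ∧ |f.2.2| ≤ 2 * X ∧ 1 ≤ ρ ∧
      Real.log ρ * (q + 1) ≤ 3 * (truncCount α S β + Real.log |(discr K : ℝ)|) ∧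
      Exc α (Sm (W * X ^ 2) (Δ * (∏ p ∈ S, p) * ρ)) (W * X ^ 2) f := by
  classical
  obtain ⟨a, b, c, k, a0, e0, ha, hb, hc, hk, hd, hF⟩ := data h2 β hβ
  have ha' : a ≤ X := by exact_mod_cast ha.trans hH
  have hb' : |b| ≤ 2 * X := by
    have : ((|b| : ℤ) : ℝ) ≤ 2 * X := by linarith
    exact_mod_cast this
  have hc' : |c| ≤ X := by exact_mod_cast hc.trans hH
  have hX' : (1 : ℤ) ≤ X := by exact_mod_cast hX
  have hW' : (8 : ℤ) ≤ W := by exact_mod_cast hW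
  set f : ℤ × ℤ × ℤ := (a, b, c) with hf
  set P : Fin q → Finset ℕ := fun i =>
    (Fv (α i) f).natAbs.primeFactors.filter fun p => p ∉ S ∧ ¬ p ∣ Δ with hP
  have hPp : ∀ i, ∀ p ∈ P i, p.Prime := fun i p hp =>
    Nat.prime_of_mem_primeFactors (mem_filter.1 hp).1
  have h1 := rad_le α hcop S hS hβ P fun i p hp => ⟨hPp i p hp, (mem_filter.1 hp).2.1,
    fun j hj h => (mem_filter.1 hp).2.2 (Int.natCast_dvd_natCast.1 (h.trans (hΔ i j hj.symm))),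
    (hF _ _ (hcop i)).2 p (hPp i p hp)
      (Int.natCast_dvd.2 (Nat.dvd_of_mem_primeFactors (mem_filter.1 hp).1))⟩
  set w : Option (Fin q) → ℕ := fun o => o.elim (discr K).natAbs fun i => ∏ p ∈ P i, p with hw
  have hw1 : ∀ o, 1 ≤ w o := by
    rintro (_ | i)
    · exact Int.natAbs_pos.2 (discr_ne_zero K)
    · exact Finset.prod_pos fun p hp => (hPp i p hp).pos
  obtain ⟨x, y, z, n1, n2, n3, hs⟩ := three_small (ι := Option (Fin q)) (by simp; omega)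
    fun o => Real.log (w o)
  have hdisc : |b ^ 2 - 4 * a * c| ≤ 8 * (X : ℤ) ^ 2 := by
    have t1 : b ^ 2 ≤ (2 * (X : ℤ)) ^ 2 := by
      rw [← sq_abs b]; exact pow_le_pow_left₀ (abs_nonneg _) hb' 2
    have t2 := abs_le.1 hc'
    exact abs_le.2 ⟨by nlinarith [sq_nonneg b], by nlinarith⟩
  refine ⟨f, w x * w y * w z, a0.ne', e0, by rw [abs_of_pos a0]; linarith, hb', by linarith,
    Nat.mul_pos (Nat.mul_pos (hw1 x) (hw1 y)) (hw1 z), ?_, ?_⟩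
  · have p0 : ∀ o, (w o : ℝ) ≠ 0 := fun o => by exact_mod_cast (by have := hw1 o; omega)
    push_cast
    rw [Real.log_mul (mul_ne_zero (p0 x) (p0 y)) (p0 z), Real.log_mul (p0 x) (p0 y)]
    rw [Fintype.card_option, Fintype.card_fin, Fintype.sum_option] at hs
    push_cast at hs
    refine hs.trans (mul_le_mul_of_nonneg_left ?_ (by norm_num))
    rw [add_comm]
    refine add_le_add (le_trans (le_of_eq (Finset.sum_congr rfl fun i _ => ?_)) h1) (le_of_eq ?_)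
    · simp only [hw, Option.elim]
      push_cast
      exact Real.log_prod fun p hp => by exact_mod_cast (hPp i p hp).ne_zero
    · simp only [hw, Option.elim]
      rw [← Int.cast_abs, ← Int.natCast_natAbs, Int.cast_natCast]
  generalize hρ : w x * w y * w z = ρ
  have dx : w x ∣ ρ := hρ ▸ (dvd_mul_right _ _).mul_right _
  have dy : w y ∣ ρ := hρ ▸ (dvd_mul_left _ _).mul_right _
  have dz : w z ∣ ρ := hρ ▸ dvd_mul_left _ _
  have mem : ∀ i, w (some i) ∣ ρ → Fv (α i) f ∈ Sm (W * X ^ 2) (Δ * (∏ p ∈ S, p) * ρ) := by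
    intro i hi
    have h0 : Fv (α i) f ≠ 0 := (hF _ _ (hcop i)).1
    simp only [Sm, mem_filter, mem_Icc, ← abs_le]
    refine ⟨?_, h0, fun p hp hd => ?_⟩
    · have t1 := hW1 i
      have t2 := abs_le.1 hc'
      have t3 := abs_le.1 hb'
      push_cast
      simp only [Fv, hf]
      generalize (α i).1 = s at *
      generalize (α i).2 = t at *
      have u1 : |b * s * t| ≤ X * (s ^ 2 + t ^ 2) := by
        rw [mul_assoc, abs_mul]
        have u2 : 2 * |s * t| ≤ s ^ 2 + t ^ 2 := by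
          rw [abs_mul, ← sq_abs s, ← sq_abs t]; nlinarith [sq_nonneg (|s| - |t|)]
        nlinarith [abs_nonneg (s * t)]
      have u3 := abs_le.1 u1
      have u4 : (X : ℤ) * (3 * (s ^ 2 + t ^ 2)) ≤ W * (X : ℤ) ^ 2 := by
        nlinarith [mul_le_mul_of_nonneg_left t1 (by linarith : (0 : ℤ) ≤ X)]
      exact abs_le.2 ⟨by nlinarith [sq_nonneg s, sq_nonneg t], by nlinarith [sq_nonneg s, sq_nonneg t]⟩
    · by_cases c1 : p ∈ S
      · exact ((Finset.dvd_prod_of_mem (fun p => p) c1).mul_left _).mul_right _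
      by_cases c2 : p ∣ Δ
      · exact (c2.mul_right _).mul_right _
      refine ((Finset.dvd_prod_of_mem (fun p => p) (s := P i) (mem_filter.2
        ⟨Nat.mem_primeFactors.2 ⟨hp, Int.natCast_dvd.1 hd, Int.natAbs_ne_zero.2 h0⟩, c1, c2⟩)).trans
        hi).mul_left _
  have caseB : ∀ i j, i ≠ j → w (some i) ∣ ρ → w (some j) ∣ ρ → w none ∣ ρ →
      Exc α (Sm (W * X ^ 2) (Δ * (∏ p ∈ S, p) * ρ)) (W * X ^ 2) f := by
    intro i j hij hi hj hn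
    obtain ⟨e, d, hed, hsq⟩ : ∃ e d : ℤ, e ^ 2 * d = discr K ∧ Squarefree d := by
      obtain ⟨a, b, h1, h2⟩ := Nat.sq_mul_squarefree (discr K).natAbs
      have h3 : (b : ℤ) ^ 2 * a = |discr K| := by rw [← Int.natCast_natAbs, ← h1]; push_cast; rfl
      rcases abs_choice (discr K) with h | h
      · exact ⟨b, a, h3.trans h, Int.squarefree_natCast.2 h2⟩
      · exact ⟨b, -a, by linarith, Int.squarefree_natAbs.1 (by simpa using h2)⟩
    have he : e ≠ 0 := fun h => discr_ne_zero K (by rw [← hed, h]; ring)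
    have hm : e * k * dt (α i) (α j) ≠ 0 := mul_ne_zero (mul_ne_zero he hk) (hne i j hij)
    have d1 : 1 ≤ |d| := Int.one_le_abs hsq.ne_zero
    have d2 : |d| * (e * k) ^ 2 ≤ 8 * (X : ℤ) ^ 2 := by
      rw [hd, ← hed, show e ^ 2 * d * k ^ 2 = d * (e * k) ^ 2 by ring, abs_mul,
        abs_of_nonneg (sq_nonneg (e * k))] at hdisc
      exact hdisc
    have d3 : 1 ≤ (e * k) ^ 2 := by
      have := Int.one_le_abs (mul_ne_zero he hk)
      rw [← sq_abs]; nlinarith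
    refine ⟨i, j, i, hij, mem i hi, mem j hj, Or.inr ⟨d, e * k * dt (α i) (α j), ?_, hsq, hm,
      ?_, ?_⟩⟩
    · simp only [Sm, mem_filter, mem_Icc, ← abs_le]
      refine ⟨?_, hsq.ne_zero, fun p hp hd => ?_⟩
      · push_cast; nlinarith
      · exact ((Int.natCast_dvd.1 (hed ▸ hd.mul_left _ : (p : ℤ) ∣ discr K)).trans hn).mul_left _
    · have t1 := Int.one_le_abs hm
      have t2 : |e * k * dt (α i) (α j)| ≤ (e * k) ^ 2 * dt (α i) (α j) ^ 2 := by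
        rw [← mul_pow, ← sq_abs]; nlinarith
      have t3 := hW2 i j
      have t4 : (e * k) ^ 2 ≤ 8 * (X : ℤ) ^ 2 := by nlinarith
      push_cast
      nlinarith [mul_le_mul_of_nonneg_right t4 (sq_nonneg (dt (α i) (α j))),
        mul_le_mul_of_nonneg_right t3 (sq_nonneg (X : ℤ))]
    · simp only [Pol, Fv, dt, hf]
      linear_combination ((α i).1 * (α j).2 - (α i).2 * (α j).1) ^ 2 * (hd - k ^ 2 * hed)
  rcases x with _ | i <;> rcases y with _ | j <;> rcases z with _ | l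
  · exact absurd rfl n1
  · exact absurd rfl n1
  · exact absurd rfl n2
  · exact caseB j l (fun h => n3 (by rw [h])) dy dz dx
  · exact absurd rfl n3
  · exact caseB i l (fun h => n2 (by rw [h])) dx dz dy
  · exact caseB i j (fun h => n1 (by rw [h])) dx dy dz
  · exact ⟨i, j, l, fun h => n1 (by rw [h]), mem i dx, mem j dy,
      Or.inl ⟨fun h => n2 (by rw [h]), fun h => n3 (by rw [h]), mem l dz⟩⟩

theorem roots_le (f : ℤ × ℤ × ℤ) (hf : f.1 ≠ 0) (T : Finset ℂ)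
    (hT : ∀ z ∈ T, f.1 * z ^ 2 + f.2.1 * z + f.2.2 = 0) : T.card ≤ 2 := by
  by_contra hcon
  obtain ⟨x, hx, y, hy, z, hz, h1, h2, h3⟩ := Finset.two_lt_card.1 (not_le.1 hcon)
  have e1 : f.1 * (x + y) + f.2.1 = 0 :=
    mul_left_cancel₀ (sub_ne_zero.2 h1) (by linear_combination hT x hx - hT y hy)
  have e2 : f.1 * (x + z) + f.2.1 = 0 :=
    mul_left_cancel₀ (sub_ne_zero.2 h2) (by linear_combination hT x hx - hT z hz)
  exact mul_ne_zero (by exact_mod_cast hf : (f.1 : ℂ) ≠ 0) (sub_ne_zero.2 h3)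
    (by linear_combination e1 - e2)

theorem finite_and_card {E : Set ℂ} {B : ℝ} (h : ∀ T : Finset ℂ, (T : Set ℂ) ⊆ E → T.card ≤ B) :
    E.Finite ∧ (E.ncard : ℝ) ≤ B := by
  have hf : E.Finite := by
    by_contra hinf
    obtain ⟨T, h1, h2⟩ := Set.Infinite.exists_subset_card_eq hinf (⌊B⌋₊ + 1)
    have := h T h1
    rw [h2] at this
    push_cast at this
    linarith [Nat.lt_floor_add_one B]
  refine ⟨hf, ?_⟩
  rw [Set.ncard_eq_toFinset_card E hf]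
  exact h _ (by simp)

theorem mainQ {q : ℕ} (hq : 2 ≤ q) (α : Fin q → ℤ × ℤ) (hcop : ∀ l, IsCoprime (α l).1 (α l).2)
    (hne : ∀ i j, i ≠ j → dt (α i) (α j) ≠ 0) (S : Finset ℕ) (hS : ∀ p ∈ S, p.Prime)
    (lam C η : ℝ) (hlam : 0 ≤ lam) (hη : 0 < η) : ∃ D : ℝ, ∀ X : ℕ, 1 ≤ X → ∀ T : Finset ℂ,
      (∀ z ∈ T, ∃ (K : IntermediateField ℚ ℂ) (_ : NumberField K) (β : K), (β : ℂ) = z ∧
        finrank ℚ K = 2 ∧ β ∉ Set.range (algebraMap ℚ K) ∧ Height.mulHeight₁ β ≤ X ∧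
        truncCount α S β + Real.log |(discr K : ℝ)| ≤ lam * Height.logHeight₁ β + C) →
      (T.card : ℝ) ≤ D * (X : ℝ) ^ (3 * lam / (q + 1) + η) := by
  classical
  set Δ : ℕ := ∏ t ∈ univ.filter (fun t : Fin q × Fin q => t.1 ≠ t.2), (dt (α t.1) (α t.2)).natAbs
    with hΔ
  have hΔ1 : 1 ≤ Δ := Finset.prod_pos fun t ht => Int.natAbs_pos.2 (hne _ _ (mem_filter.1 ht).2)
  have hΔ2 : ∀ i j, i ≠ j → dt (α i) (α j) ∣ Δ := fun i j h => Int.natAbs_dvd.1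
    (Int.natCast_dvd_natCast.2 (Finset.dvd_prod_of_mem
      (fun t : Fin q × Fin q => (dt (α t.1) (α t.2)).natAbs) (a := (i, j))
      (mem_filter.2 ⟨mem_univ _, h⟩)))
  obtain ⟨W, hW, hW1, hW2⟩ : ∃ W : ℕ, 8 ≤ W ∧ (∀ i, 3 * ((α i).1 ^ 2 + (α i).2 ^ 2) ≤ W) ∧
      ∀ i j, 8 * dt (α i) (α j) ^ 2 ≤ W := by
    obtain ⟨W1, h1⟩ := (Set.finite_range fun i => 3 * ((α i).1 ^ 2 + (α i).2 ^ 2)).bddAbove
    obtain ⟨W2, h2⟩ := (Set.finite_range fun t : Fin q × Fin q =>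
      8 * dt (α t.1) (α t.2) ^ 2).bddAbove
    refine ⟨8 + W1.toNat + W2.toNat, by omega, fun i => ?_, fun i j => ?_⟩
    · have := h1 ⟨i, rfl⟩
      simp only at this
      omega
    · have := h2 ⟨(i, j), rfl⟩
      simp only at this
      omega
  set A : ℕ := Δ * ∏ p ∈ S, p with hA
  have hA1 : 1 ≤ A := Nat.mul_pos hΔ1 (Finset.prod_pos fun p hp => (hS p hp).pos)
  set δ : ℝ := η / ((4 + lam) * 7) with hδ
  have hδ0 : 0 < δ := by positivity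
  obtain ⟨D1, hD1, h1⟩ := Sm_le δ hδ0
  obtain ⟨D2, hD2, h2⟩ := Pool.Agent.H510R2.divisor_bound δ hδ0
  set K0 : ℝ := 4 * W ^ 2 * A * Real.exp |C| with hK0
  have hW' : (8 : ℝ) ≤ W := by exact_mod_cast hW
  have hA' : (1 : ℝ) ≤ A := by exact_mod_cast hA1
  have hC' : 1 ≤ Real.exp |C| := Real.one_le_exp (abs_nonneg _)
  have hq' : (2 : ℝ) ≤ q := by exact_mod_cast hq
  refine ⟨2 * Real.exp |C| * (q ^ 3 * ((1 + 264 * D2 ^ 4) * D1 ^ 3) * (K0 ^ δ) ^ 7),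
    fun X hX T hT => ?_⟩
  have hX1 : (1 : ℝ) ≤ X := by exact_mod_cast hX
  have hX0 : (0 : ℝ) < X := by linarith
  set θ : ℝ := 3 / (q + 1) with hθ
  have hθ0 : 0 ≤ θ := by positivity
  have hθ1 : θ ≤ 1 := by rw [hθ, div_le_one (by linarith)]; linarith
  set R : ℝ := Real.exp |C| * (X : ℝ) ^ (lam * θ) with hR
  set Z : ℕ := W * X ^ 2 with hZ
  have hZ1 : 1 ≤ Z := Nat.mul_pos (by omega) (by positivity)
  set V : ℝ := K0 * (X : ℝ) ^ (4 + lam) with hV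
  have hXl : 1 ≤ (X : ℝ) ^ lam := Real.one_le_rpow hX1 hlam
  have hV4 : V = 4 * (Z : ℝ) ^ 2 * (A * (Real.exp |C| * (X : ℝ) ^ lam)) := by
    rw [hV, hK0, hZ, Real.rpow_add hX0, show (4 : ℝ) = ((4 : ℕ) : ℝ) by norm_num,
      Real.rpow_natCast]
    push_cast; ring
  have hZ' : (1 : ℝ) ≤ Z := by exact_mod_cast hZ1
  have hAC : 1 ≤ A * (Real.exp |C| * (X : ℝ) ^ lam) :=
    one_le_mul_of_one_le_of_one_le hA' (one_le_mul_of_one_le_of_one_le hC' hXl)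
  have hV1 : 4 * (Z : ℝ) ^ 2 ≤ V := by rw [hV4]; nlinarith
  have hV2 : (Z : ℝ) ≤ V := by nlinarith
  have hVδ : 1 ≤ V ^ δ := Real.one_le_rpow (hZ'.trans hV2) hδ0.le
  have hdiv : ∀ n : ℕ, 1 ≤ n → (n : ℝ) ≤ V → (n.divisors.card : ℝ) ≤ D2 * V ^ δ := fun n a b =>
    (h2 n a).trans (mul_le_mul_of_nonneg_left (Real.rpow_le_rpow (by positivity) b hδ0.le) hD2.le)
  have hlog : ((Nat.log 2 Z + 1 : ℕ) : ℝ) ≤ D2 * V ^ δ := by
    have := hdiv (2 ^ Nat.log 2 Z) Nat.one_le_two_pow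
      (le_trans (by exact_mod_cast Nat.pow_log_le_self 2 (by omega : Z ≠ 0)) hV2)
    rwa [Nat.divisors_prime_pow Nat.prime_two, card_map, card_range] at this
  have e2 : ∀ ρ ∈ Icc 1 ⌊R⌋₊, ∀ F : Finset (ℤ × ℤ × ℤ), (∀ f ∈ F, Exc α (Sm Z (A * ρ)) Z f) →
      (F.card : ℝ) ≤ q ^ 3 * ((1 + 264 * D2 ^ 4) * D1 ^ 3) * (V ^ δ) ^ 7 := by
    intro ρ hρ F hF
    obtain ⟨r1, r2⟩ := mem_Icc.1 hρ
    have b1 : (ρ : ℝ) ≤ Real.exp |C| * (X : ℝ) ^ lam := by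
      refine ((Nat.cast_le.2 r2).trans (Nat.floor_le (by positivity))).trans ?_
      refine mul_le_mul_of_nonneg_left (Real.rpow_le_rpow_of_exponent_le hX1 ?_) (by positivity)
      nlinarith
    have b2 : ((Sm Z (A * ρ)).card : ℝ) ≤ D1 * V ^ δ := by
      refine (h1 Z (A * ρ) hZ1 (Nat.mul_pos hA1 r1)).trans (mul_le_mul_of_nonneg_left
        (Real.rpow_le_rpow (by positivity) ?_ hδ0.le) hD1.le)
      rw [hV4]
      push_cast
      refine mul_le_mul (by nlinarith) (mul_le_mul_of_nonneg_left b1 (by positivity))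
        (by positivity) (by positivity)
    have hSm : ∀ y ∈ Sm Z (A * ρ), y ≠ 0 ∧ |y| ≤ Z := fun y hy => by
      simp only [Sm, mem_filter, mem_Icc, ← abs_le] at hy
      exact ⟨hy.2.1, hy.1⟩
    have b3 := countE α hne (Sm Z (A * ρ)) Z ⌊264 * (D2 * V ^ δ) ^ 4⌋₊ (fun y hy => (hSm y hy).1)
      (fun y hy y' hy' => Nat.le_floor (by
        obtain ⟨a1, a2⟩ := hSm y hy
        obtain ⟨a3, a4⟩ := hSm y' hy'
        have a5 := hdiv (4 * y * y').natAbs (Int.natAbs_pos.2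
          (mul_ne_zero (mul_ne_zero (by norm_num) a1) a3)) (le_trans (by
            have : ((4 * y * y').natAbs : ℤ) ≤ 4 * (Z : ℤ) ^ 2 := by
              rw [Int.natCast_natAbs, abs_mul, abs_mul]
              have := mul_le_mul a2 a4 (abs_nonneg _) (by positivity)
              norm_num
              nlinarith
            exact_mod_cast this) hV1)
        rw [Nat.cast_mul, Nat.cast_mul, Nat.cast_pow, pow_succ _ 3]
        refine mul_le_mul_of_nonneg_left (mul_le_mul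
          (pow_le_pow_left₀ (by positivity) a5 3) hlog (by positivity) (by positivity))
          (by positivity))) F hF
    have b4 : (F.card : ℝ) ≤ q ^ 3 * ((1 + (⌊264 * (D2 * V ^ δ) ^ 4⌋₊ : ℝ)) *
        ((Sm Z (A * ρ)).card : ℝ) ^ 3) := by exact_mod_cast b3
    have b5 : 1 + (⌊264 * (D2 * V ^ δ) ^ 4⌋₊ : ℝ) ≤ (1 + 264 * D2 ^ 4) * (V ^ δ) ^ 4 := by
      have := Nat.floor_le (by positivity : 0 ≤ 264 * (D2 * V ^ δ) ^ 4)
      have t := one_le_pow₀ (n := 4) hVδ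
      have e : (1 + 264 * D2 ^ 4) * (V ^ δ) ^ 4 = (V ^ δ) ^ 4 + 264 * (D2 * V ^ δ) ^ 4 := by ring
      linarith
    refine b4.trans ?_
    rw [mul_assoc ((q : ℝ) ^ 3)]
    refine mul_le_mul_of_nonneg_left ((mul_le_mul b5 (pow_le_pow_left₀ (by positivity) b2 3)
      (by positivity) (by positivity)).trans (le_of_eq ?_)) (by positivity)
    generalize V ^ δ = u
    ring
  have h3 : ∀ z : ℂ, ∃ (f : ℤ × ℤ × ℤ) (ρ : ℕ), z ∈ T → f.1 ≠ 0 ∧
      f.1 * z ^ 2 + f.2.1 * z + f.2.2 = 0 ∧ ρ ∈ Icc 1 ⌊R⌋₊ ∧ Exc α (Sm Z (A * ρ)) Z f := by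
    intro z
    by_cases hz : z ∈ T
    · obtain ⟨K, _, β, rfl, k2, hβ, hH, hN⟩ := hT z hz
      obtain ⟨f, ρ, a1, a2, -, -, -, a3, a4, a5⟩ :=
        reduceQ k2 hq α hcop hne S hS Δ W X hΔ2 hW hW1 hW2 hX β hβ hH
      refine ⟨f, ρ, fun _ => ⟨a1, ?_, mem_Icc.2 ⟨a3, Nat.le_floor ?_⟩, a5⟩⟩
      · have := congrArg (algebraMap K ℂ) a2
        simpa using this
      · have hρ : (0 : ℝ) < ρ := by exact_mod_cast a3
        have c1 : Height.logHeight₁ β ≤ Real.log X := by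
          rw [Height.logHeight₁_eq_log_mulHeight₁]
          exact Real.log_le_log (Height.mulHeight₁_pos β) hH
        have c2 := mul_le_mul_of_nonneg_left c1 hlam
        have c3 : Real.log ρ ≤ θ * (lam * Real.log X + |C|) := by
          rw [hθ, div_mul_eq_mul_div, le_div_iff₀ (by linarith)]
          linarith [le_abs_self C]
        rw [hR, Real.rpow_def_of_pos hX0, ← Real.exp_add, ← Real.exp_log hρ, Real.exp_le_exp]
        nlinarith [abs_nonneg C]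
    · exact ⟨0, 0, fun h => absurd h hz⟩
  choose f ρ hf using h3
  have e3 : T.card ≤ 2 * (T.image f).card := Finset.card_le_mul_card_image _ 2 fun g hg => by
    obtain ⟨z, hz, rfl⟩ := mem_image.1 hg
    exact roots_le (f z) (hf z hz).1 _ fun w hw => by
      rw [← (mem_filter.1 hw).2]; exact (hf w (mem_filter.1 hw).1).2.1
  have e4 : T.image f ⊆ (Icc 1 ⌊R⌋₊).biUnion fun r =>
      (T.image f).filter fun g => Exc α (Sm Z (A * r)) Z g := by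
    intro g hg
    obtain ⟨z, hz, rfl⟩ := mem_image.1 hg
    exact mem_biUnion.2 ⟨ρ z, (hf z hz).2.2.1, mem_filter.2 ⟨hg, (hf z hz).2.2.2⟩⟩
  have e5 : ((T.image f).card : ℝ) ≤
      R * (q ^ 3 * ((1 + 264 * D2 ^ 4) * D1 ^ 3) * (V ^ δ) ^ 7) := by
    refine (Nat.cast_le.2 ((card_le_card e4).trans Finset.card_biUnion_le)).trans ?_
    push_cast
    refine (Finset.sum_le_card_nsmul _ _ _ fun r hr => e2 r hr _
      fun g hg => (mem_filter.1 hg).2).trans ?_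
    rw [nsmul_eq_mul]
    refine mul_le_mul_of_nonneg_right ?_ (by positivity)
    simpa using Nat.floor_le (by positivity : 0 ≤ R)
  have e6 : (V ^ δ) ^ 7 = (K0 ^ δ) ^ 7 * (X : ℝ) ^ η := by
    rw [hV, Real.mul_rpow (by positivity) (by positivity), mul_pow, ← Real.rpow_mul hX0.le,
      ← Real.rpow_mul_natCast hX0.le]
    congr 2
    rw [hδ]; push_cast; field_simp
  have e7 : (T.card : ℝ) ≤ 2 * (T.image f).card := by exact_mod_cast e3
  refine e7.trans ((mul_le_mul_of_nonneg_left e5 (by norm_num)).trans (le_of_eq ?_))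
  rw [e6, hR, Real.rpow_add hX0, show 3 * lam / (q + 1) = lam * θ by rw [hθ]; ring]
  ring

end Pool.Agent.H255Z.Quad
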