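import Pool.Agent.H255Z.Quad.Field
import Pool.Agent.H255Z.Quad.Defs

/-! Lower bound for the truncated counting function. -/

namespace Pool.Agent.H255Z.Quad

open Finset NumberField Module

variable {K : Type*} [Field K] [NumberField K]

theorem lin_ne {β : K} (hβ : β ∉ Set.range (algebraMap ℚ K)) (s t : ℤ) (hst : IsCoprime s t) :
    (t : K) * β - s ≠ 0 := by
  intro h1
  by_cases ht : t = 0
  · rw [ht] at h1 hst
    have h3 : s = 0 := by simpa using h1
    rw [h3] at hst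
    exact not_isCoprime_zero_zero hst
  · have htK : (t : K) ≠ 0 := by exact_mod_cast ht
    refine hβ ⟨s / t, ?_⟩
    rw [eq_ratCast]
    push_cast
    field_simp
    linear_combination -h1

theorem dvd_of_mem (v : FinitePlace K) {p : ℕ} (hp : p.Prime) (d : ℤ)
    (h1 : (p : 𝓞 K) ∈ v.maximalIdeal.asIdeal) (h2 : (d : 𝓞 K) ∈ v.maximalIdeal.asIdeal) :
    (p : ℤ) ∣ d := by
  by_contra hn
  obtain ⟨a, b, hab⟩ := ((Nat.prime_iff_prime_int.1 hp).coprime_iff_not_dvd).2 hn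
  refine v.maximalIdeal.isPrime.ne_top ((Ideal.eq_top_iff_one _).2 ?_)
  have : (1 : 𝓞 K) = a * p + b * d := by exact_mod_cast congrArg (Int.cast : ℤ → 𝓞 K) hab.symm
  rw [this]
  exact Ideal.add_mem _ (Ideal.mul_mem_left _ _ h1) (Ideal.mul_mem_left _ _ h2)

theorem same_prime (v : FinitePlace K) {p p' : ℕ} (hp : p.Prime) (hp' : p'.Prime)
    (h1 : (p : 𝓞 K) ∈ v.maximalIdeal.asIdeal) (h2 : (p' : 𝓞 K) ∈ v.maximalIdeal.asIdeal) :
    p = p' :=
  (Nat.prime_dvd_prime_iff_eq hp hp').1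
    (Int.natCast_dvd_natCast.1 (dvd_of_mem v hp p' h1 (by exact_mod_cast h2)))

theorem le_absNorm (v : FinitePlace K) {p : ℕ} (hp : p.Prime)
    (h1 : (p : 𝓞 K) ∈ v.maximalIdeal.asIdeal) : p ≤ Ideal.absNorm v.maximalIdeal.asIdeal := by
  have := v.maximalIdeal.isMaximal
  obtain ⟨p', n, hn, h2, hp', e⟩ := Ideal.exists_prime_and_absNorm_eq_pow v.maximalIdeal.asIdeal
  rw [e, ← same_prime v hp hp' h1 h2]
  exact Nat.le_self_pow hn.ne' p

theorem int_le_one' (v : FinitePlace K) (d : ℤ) : v (d : K) ≤ 1 := by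
  simpa using int_le_one v (d : 𝓞 K)

theorem det_mem (v : FinitePlace K) (β : K) (s t s' t' : ℤ)
    (h1 : v (t * β - s) < max (v β) 1) (h2 : v (t' * β - s') < max (v β) 1) :
    ((s * t' - t * s' : ℤ) : 𝓞 K) ∈ v.maximalIdeal.asIdeal := by
  have key : ∀ a b : ℤ, v (a * (t * β - s) + b * (t' * β - s')) < max (v β) 1 := by
    intro a b
    refine (v.add_le _ _).trans_lt (max_lt ?_ ?_)
    · rw [map_mul]
      exact (mul_le_of_le_one_left (apply_nonneg _ _) (int_le_one' v a)).trans_lt h1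
    · rw [map_mul]
      exact (mul_le_of_le_one_left (apply_nonneg _ _) (int_le_one' v b)).trans_lt h2
  have k1 := key (-t') t
  have k2 := key (-s') s
  have e1 : ((-t' : ℤ) : K) * (t * β - s) + t * (t' * β - s') = ((s * t' - t * s' : ℤ) : K) := by
    push_cast; ring
  have e2 : ((-s' : ℤ) : K) * (t * β - s) + s * (t' * β - s') =
      ((s * t' - t * s' : ℤ) : K) * β := by push_cast; ring
  rw [e1] at k1
  rw [e2, map_mul] at k2
  refine (FinitePlace.norm_lt_one_iff_mem K _ _).1 ?_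
  rw [map_intCast, FinitePlace.norm_embedding_eq]
  rcases le_total (v β) 1 with h | h
  · rwa [max_eq_right h] at k1
  · rw [max_eq_left h] at k2
    by_contra hc
    push Not at hc
    nlinarith

theorem rad_le {q : ℕ} (α : Fin q → ℤ × ℤ) (hcop : ∀ l, IsCoprime (α l).1 (α l).2)
    (S : Finset ℕ) (hS : ∀ p ∈ S, p.Prime) {β : K} (hβ : β ∉ Set.range (algebraMap ℚ K))
    (P : Fin q → Finset ℕ) (h1 : ∀ i, ∀ p ∈ P i, p.Prime ∧ p ∉ S ∧
      (∀ j, j ≠ i → ¬ (p : ℤ) ∣ (α i).1 * (α j).2 - (α i).2 * (α j).1) ∧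
      ∃ v : FinitePlace K, (p : 𝓞 K) ∈ v.maximalIdeal.asIdeal ∧
        v ((α i).2 * β - (α i).1) < max (v β) 1) :
    ∑ i, ∑ p ∈ P i, Real.log p ≤ truncCount α S β := by
  classical
  have hfin : {v : FinitePlace K | (∀ p ∈ S, (p : 𝓞 K) ∉ v.maximalIdeal.asIdeal) ∧
      ∃ i, v ((α i).2 * β - (α i).1) < max (v β) 1}.Finite := by
    have hβ0 : β ≠ 0 := by simpa using lin_ne hβ 0 1 isCoprime_one_right
    refine Set.Finite.subset ((Set.finite_iUnion fun i => FinitePlace.hasFiniteMulSupport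
      (lin_ne hβ _ _ (hcop i))).union (FinitePlace.hasFiniteMulSupport hβ0)) ?_
    rintro v ⟨-, i, hi⟩
    by_contra hc
    simp only [Set.mem_union, Set.mem_iUnion, Function.mem_mulSupport, not_or, not_exists,
      not_not] at hc
    rw [hc.1 i, hc.2, max_self] at hi
    exact lt_irrefl _ hi
  rw [truncCount, finsum_mem_eq_finite_toFinset_sum _ hfin, Finset.sum_sigma']
  have h2 : ∀ x : (_ : Fin q) × ℕ, ∃ v : FinitePlace K, x ∈ univ.sigma P →
      (x.2 : 𝓞 K) ∈ v.maximalIdeal.asIdeal ∧ v ((α x.1).2 * β - (α x.1).1) < max (v β) 1 := by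
    intro x
    by_cases hx : x ∈ univ.sigma P
    · obtain ⟨v, hv⟩ := (h1 x.1 x.2 (mem_sigma.1 hx).2).2.2.2
      exact ⟨v, fun _ => hv⟩
    · obtain ⟨Q, hQ⟩ := Ideal.exists_maximal (𝓞 K)
      exact ⟨FinitePlace.mk ⟨Q, hQ.isPrime, Ring.ne_bot_of_isMaximal_of_not_isField hQ
        (RingOfIntegers.not_isField K)⟩, fun h => absurd h hx⟩
  choose f hf using h2
  have hinj : Set.InjOn f (univ.sigma P : Finset ((_ : Fin q) × ℕ)) := by
    rintro ⟨i, p⟩ hx ⟨j, p'⟩ hy e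
    obtain ⟨a1, a2⟩ := hf _ hx
    obtain ⟨b1, b2⟩ := hf _ hy
    rw [← e] at b1 b2
    obtain ⟨c1, -, c3, -⟩ := h1 i p (mem_sigma.1 hx).2
    have e1 : p = p' := same_prime _ c1 (h1 j p' (mem_sigma.1 hy).2).1 a1 b1
    have e2 : j = i := by
      by_contra hne
      exact c3 j hne (dvd_of_mem _ c1 _ a1 (det_mem _ β _ _ _ _ a2 b2))
    rw [e1, e2]
  refine le_trans (Finset.sum_le_sum (g := fun x =>
    Real.log (Ideal.absNorm (f x).maximalIdeal.asIdeal)) fun x hx => ?_) ?_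
  · have hp := (h1 x.1 x.2 (mem_sigma.1 hx).2).1
    exact Real.log_le_log (by exact_mod_cast hp.pos)
      (by exact_mod_cast le_absNorm _ hp (hf x hx).1)
  · rw [← Finset.sum_image (f := fun v : FinitePlace K =>
      Real.log (Ideal.absNorm v.maximalIdeal.asIdeal)) hinj]
    refine Finset.sum_le_sum_of_subset_of_nonneg (fun v hv => ?_)
      fun v _ _ => Real.log_natCast_nonneg _
    obtain ⟨x, hx, rfl⟩ := mem_image.1 hv
    obtain ⟨c1, c2, -⟩ := h1 x.1 x.2 (mem_sigma.1 hx).2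
    refine hfin.mem_toFinset.2 ⟨fun p hp h => c2 ?_, x.1, (hf x hx).2⟩
    rw [same_prime _ c1 (hS p hp) (hf x hx).1 h]
    exact hp

end Pool.Agent.H255Z.Quad
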